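import Pool.Agent.Lib.MP_d118f9_ag.B.Coord

/-!
# MP_d118f9_ag, block B: arrays and elements of `Fb`
-/

set_option autoImplicit false

noncomputable section

open Classical

namespace Pool.Agent.MPd118f9

/-- For an alternating cycle all contractions vanish.  Proof: for `i = 0` there is no `l`; for
`i + 1` the function `Function.update I l j` is `(Fin.cons j J) ∘ σ` with a permutation `σ` that
does not depend on `j`. -/
theorem Alt.contr_update {ι A : Type} [Fintype ι] [CommRing A] {v : ι → A} {i : ℕ}
    {c : (Fin i → ι) → A} (hc : Alt c) (h0 : IsCyc v c) (l : Fin i) (I : Fin i → ι) :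
    ∑ j, v j * c (Function.update I l j) = 0 := by
  match i, c, hc, h0, l, I with
  | 0, _, _, _, l, _ => exact l.elim0
  | n + 1, c, hc, h0, l, I =>
    have h1 : ∀ j, c (Function.update I l j) =
        ((Equiv.Perm.sign l.cycleRange : ℤˣ) : ℤ) • c (Fin.cons j (l.removeNth I)) := by
      intro j
      rw [← hc, Fin.cons_comp_cycleRange, Fin.insertNth_removeNth]
    have h2 : ∑ j, v j * c (Fin.cons j (l.removeNth I)) = 0 := h0 (l.removeNth I)
    calc ∑ j, v j * c (Function.update I l j)
        = ((Equiv.Perm.sign l.cycleRange : ℤˣ) : ℤ) •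
          ∑ j, v j * c (Fin.cons j (l.removeNth I)) := by
          rw [Finset.smul_sum]
          refine Finset.sum_congr rfl fun j _ => ?_
          rw [h1, mul_smul_comm]
      _ = 0 := by rw [h2, smul_zero]

section

variable {k F S : Type} [Field k] [Field F] [Algebra k F]
  [CommRing S] [Algebra k S] [Algebra F S] [IsScalarTower k F S]

/-- The function of the variables `x 0, …, x (t-1), y` with the coefficients `c`. -/
def Vars.arr (V : Vars k F S) {t r : ℕ} (a : Fin r → F) (c : (Fin t → Fin r) → F) : S :=
  ∑ I : Fin t → Fin r, (∏ l : Fin t, V.x l (a (I l))) * algebraMap F S (c I)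

/-- Proof: `Fin.snocEquiv` or `Fin.consEquiv`-like reindexing of the sum, `Fin.prod_univ_castSucc`.
-/
theorem Vars.arr_succ (V : Vars k F S) {t r : ℕ} (a : Fin r → F)
    (c : (Fin (t + 1) → Fin r) → F) :
    V.arr a c = ∑ j, V.x t (a j) * V.arr a fun I => c (Fin.snoc (α := fun _ => Fin r) I j) := by
  unfold Vars.arr
  rw [← (Fin.snocEquiv (fun _ : Fin (t + 1) => Fin r)).sum_comp, Fintype.sum_prod_type]
  refine Finset.sum_congr rfl fun j _ => ?_
  rw [Finset.mul_sum]
  refine Finset.sum_congr rfl fun I _ => ?_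
  have e : (Fin.snocEquiv (fun _ : Fin (t + 1) => Fin r)) (j, I) =
    Fin.snoc (α := fun _ => Fin r) I j := rfl
  rw [e, Fin.prod_univ_castSucc]
  simp only [Fin.snoc_castSucc, Fin.snoc_last, Fin.val_castSucc, Fin.val_last]
  ring

theorem Vars.arr_mem_T (V : Vars k F S) {t r : ℕ} (a : Fin r → F) (c : (Fin t → Fin r) → F) :
    V.arr a c ∈ V.T t := by
  unfold Vars.arr
  refine Subalgebra.sum_mem _ fun I _ => ?_
  refine Subalgebra.mul_mem _ (Subalgebra.prod_mem _ fun l _ => ?_)
    (Subalgebra.algebraMap_mem _ _)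
  exact monotone_nat_of_le_succ V.mono (Nat.succ_le_of_lt l.2) (V.x_mem l _)

theorem Vars.smul_arr (V : Vars k F S) {t r : ℕ} (a : Fin r → F) (c : (Fin t → Fin r) → F)
    (f : F) : f • V.arr a c = V.arr a fun I => f * c I := by
  unfold Vars.arr
  rw [Finset.smul_sum]
  refine Finset.sum_congr rfl fun I _ => ?_
  rw [Algebra.smul_def, map_mul]
  ring

theorem Vars.arr_sum (V : Vars k F S) {t r n : ℕ} (a : Fin r → F)
    (c : Fin n → (Fin t → Fin r) → F) : ∑ j, V.arr a (c j) = V.arr a fun I => ∑ j, c j I := by
  unfold Vars.arr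
  rw [Finset.sum_comm]
  refine Finset.sum_congr rfl fun I _ => ?_
  rw [← Finset.mul_sum, map_sum]

omit [IsScalarTower k F S] in
private theorem arr_zero' (V : Vars k F S) {r : ℕ} (a : Fin r → F)
    (c : (Fin 0 → Fin r) → F) (I : Fin 0 → Fin r) : V.arr a c = algebraMap F S (c I) := by
  unfold Vars.arr
  rw [Fintype.sum_unique]
  rw [Finset.univ_eq_empty, Finset.prod_empty, one_mul]
  rw [Subsingleton.elim I default]

/-- The coefficients are unique.  Induction on `t` with `arr_succ` and `Disj.left`. -/
theorem Vars.arr_inj [IsAlgClosed k] [CharZero k] (V : Vars k F S) [Nontrivial S] {t r : ℕ}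
    (hV : ∀ s < t, V.Disj s) {a : Fin r → F} (ha : LinearIndependent k a)
    {c : (Fin t → Fin r) → F} (h0 : V.arr a c = 0) : ∀ I, c I = 0 := by
  induction t with
  | zero =>
    intro I
    rw [arr_zero' V a c I] at h0
    exact (map_eq_zero_iff _ (algebraMap F S).injective).1 h0
  | succ t ih =>
    intro I
    rw [Vars.arr_succ] at h0
    have h1 := (hV t (Nat.lt_succ_self t)).left ha (fun j => V.arr_mem_T a _) h0 (I (Fin.last t))
    have h2 := ih (fun s hs => hV s (hs.trans (Nat.lt_succ_self t))) h1 (Fin.init I)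
    rwa [Fin.snoc_init_self] at h2

/-- An array whose contractions vanish gives an element of `Fb`.  Induction on `t` with
`arr_succ`: `ρ t (∑ j, x_t(a j) u_j) = ∑ j, a j • u_j`, `u_j ∈ T t`. -/
theorem Vars.arr_mem_Fb [IsAlgClosed k] [CharZero k] (V : Vars k F S) {t r : ℕ} {A B : Dv k F}
    {a : Fin r → F} (ha : ∀ j, a j ∈ L A) {c : (Fin t → Fin r) → F} (hc : ∀ I, c I ∈ L B)
    (h0 : ∀ (l : Fin t) (I : Fin t → Fin r), ∑ j, a j * c (Function.update I l j) = 0) :
    V.arr a c ∈ V.Fb (fun _ => A) t B := by
  induction t with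
  | zero =>
    rw [arr_zero' V a c (fun i => i.elim0)]
    exact ⟨_, hc _, rfl⟩
  | succ t ih =>
    have hu : ∀ j, V.arr a (fun I => c (Fin.snoc (α := fun _ => Fin r) I j)) ∈
        V.Fb (fun _ => A) t B := by
      intro j
      refine ih (fun I => hc _) (fun l I => ?_)
      have := h0 l.castSucc (Fin.snoc (α := fun _ => Fin r) I j)
      simpa only [← Fin.snoc_update] using this
    show V.arr a c ∈ (V.Lx t A * V.Fb (fun _ => A) t B) ⊓
      (LinearMap.ker (V.ρ t).toLinearMap).restrictScalars k
    refine ⟨?_, ?_⟩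
    · rw [Vars.arr_succ]
      exact V.mem_Lx_mul ha hu
    · show V.ρ t (V.arr a c) = 0
      rw [Vars.arr_succ, map_sum]
      have h1 : ∀ j, V.ρ t (V.x t (a j) *
          V.arr a (fun I => c (Fin.snoc (α := fun _ => Fin r) I j))) =
          V.arr a (fun I => a j * c (Fin.snoc (α := fun _ => Fin r) I j)) := by
        intro j
        rw [map_mul, V.ρ_x, V.ρ_fix t _ (V.arr_mem_T a _), ← Algebra.smul_def, Vars.smul_arr]
      simp only [h1]
      rw [Vars.arr_sum]
      have h2 : (fun I : Fin t → Fin r =>
          ∑ j, a j * c (Fin.snoc (α := fun _ => Fin r) I j)) = fun _ => 0 := by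
        funext I
        rcases isEmpty_or_nonempty (Fin r) with he | ⟨⟨j₀⟩⟩
        · exact Finset.sum_of_isEmpty _
        · have := h0 (Fin.last t) (Fin.snoc (α := fun _ => Fin r) I j₀)
          simpa only [Fin.update_snoc_last] using this
      rw [h2]
      unfold Vars.arr
      simp

/-- Every element of `Fb` comes from an array whose contractions vanish.  Induction on `t` with
`exists_coord` and `arr_inj`. -/
theorem Vars.exists_arr [IsAlgClosed k] [CharZero k] (V : Vars k F S) [Nontrivial S] {t r : ℕ}
    (hV : ∀ s < t, V.Disj s) {A B : Dv k F} {a : Fin r → F} (ha : LinearIndependent k a)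
    (hsp : L A ≤ Submodule.span k (Set.range a)) {u : S} (hu : u ∈ V.Fb (fun _ => A) t B) :
    ∃ c : (Fin t → Fin r) → F, (∀ I, c I ∈ L B) ∧ V.arr a c = u ∧
      ∀ (l : Fin t) (I : Fin t → Fin r), ∑ j, a j * c (Function.update I l j) = 0 := by
  induction t generalizing u with
  | zero =>
    obtain ⟨f, hf, rfl⟩ := hu
    refine ⟨fun _ => f, fun _ => hf, ?_, fun l => l.elim0⟩
    rw [arr_zero' V a _ (fun i => i.elim0)]
    rfl
  | succ t ih =>
    obtain ⟨hu1, hu2⟩ : u ∈ (V.Lx t A * V.Fb (fun _ => A) t B) ∧ V.ρ t u = 0 := hu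
    obtain ⟨w, hw, hxw⟩ := V.exists_coord hsp hu1
    choose d hd1 hd2 hd3 using fun j => ih (fun s hs => hV s (hs.trans (Nat.lt_succ_self t)))
      (hw j)
    let c : (Fin (t + 1) → Fin r) → F := fun I => d (I (Fin.last t)) (Fin.init I)
    have hc : ∀ (I : Fin t → Fin r) (j : Fin r),
        c (Fin.snoc (α := fun _ => Fin r) I j) = d j I := by
      intro I j
      show d (Fin.snoc (α := fun _ => Fin r) I j (Fin.last t))
        (Fin.init (Fin.snoc (α := fun _ => Fin r) I j)) = d j I
      rw [Fin.snoc_last, Fin.init_snoc]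
    refine ⟨c, fun I => hd1 _ _, ?_, fun l => ?_⟩
    · rw [Vars.arr_succ, hxw]
      refine Finset.sum_congr rfl fun j _ => ?_
      simp only [hc]
      rw [hd2]
    · refine Fin.lastCases ?_ (fun l' => ?_) l
      · intro I
        have h1 : V.arr a (fun I => ∑ j, a j * d j I) = 0 := by
          rw [← Vars.arr_sum V a (fun j I => a j * d j I), ← hu2, hxw, map_sum]
          refine Finset.sum_congr rfl fun j _ => ?_
          rw [map_mul, V.ρ_x, ← hd2 j, V.ρ_fix t _ (V.arr_mem_T a _), ← Algebra.smul_def,
            Vars.smul_arr]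
        have h2 := V.arr_inj (fun s hs => hV s (hs.trans (Nat.lt_succ_self t))) ha h1
          (Fin.init I)
        have h3 : ∀ j, c (Function.update I (Fin.last t) j) = d j (Fin.init I) := by
          intro j
          show d (Function.update I (Fin.last t) j (Fin.last t))
            (Fin.init (Function.update I (Fin.last t) j)) = d j (Fin.init I)
          rw [Function.update_self, Fin.init_update_last]
        simp only [h3]
        exact h2
      · intro I
        have h3 : ∀ j, c (Function.update I l'.castSucc j) =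
            d (I (Fin.last t)) (Function.update (Fin.init I) l' j) := by
          intro j
          show d (Function.update I l'.castSucc j (Fin.last t))
            (Fin.init (Function.update I l'.castSucc j)) = _
          rw [Function.update_of_ne (Fin.castSucc_lt_last l').ne', Fin.init_update_castSucc]
        simp only [h3]
        exact hd3 _ l' _

end

end Pool.Agent.MPd118f9
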