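import Pool.Agent.Lib.MP_d118f9_ag.B.Defs

/-!
# MP_d118f9_ag, block B: coordinates for one more variable
-/

set_option autoImplicit false

noncomputable section

open Classical

namespace Pool.Agent.MPd118f9

variable {k F S : Type} [Field k] [IsAlgClosed k] [CharZero k] [Field F] [Algebra k F]
  [CommRing S] [Algebra k S] [Algebra F S] [IsScalarTower k F S]

/-- Coordinates: `x ∈ L(A)(x t) · N` is a combination of a spanning family of `L(A)`.  Proof:
`Submodule.mul_induction_on`; for a product write `f ∈ L(A)` as a combination of the `a i`. -/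
theorem Vars.exists_coord (V : Vars k F S) {t : ℕ} {A : Dv k F} {N : Submodule k S} {r : ℕ}
    {a : Fin r → F} (hsp : L A ≤ Submodule.span k (Set.range a)) {x : S}
    (hx : x ∈ V.Lx t A * N) : ∃ u : Fin r → S, (∀ i, u i ∈ N) ∧ x = ∑ i, V.x t (a i) * u i := by
  refine Submodule.mul_induction_on hx ?_ ?_
  · rintro m ⟨f, hf, rfl⟩ n hn
    obtain ⟨c, hc⟩ := (Submodule.mem_span_range_iff_exists_fun k).1 (hsp hf)
    refine ⟨fun i => c i • n, fun i => N.smul_mem _ hn, ?_⟩
    show V.x t f * n = _
    rw [← hc, map_sum, Finset.sum_mul]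
    refine Finset.sum_congr rfl fun i _ => ?_
    rw [map_smul, smul_mul_assoc, mul_smul_comm]
  · rintro x y ⟨u, hu, rfl⟩ ⟨v, hv, rfl⟩
    refine ⟨fun i => u i + v i, fun i => N.add_mem (hu i) (hv i), ?_⟩
    rw [← Finset.sum_add_distrib]
    refine Finset.sum_congr rfl fun i _ => ?_
    rw [mul_add]

theorem Vars.mem_Lx_mul (V : Vars k F S) {t : ℕ} {A : Dv k F} {N : Submodule k S} {r : ℕ}
    {a : Fin r → F} (ha : ∀ i, a i ∈ L A) {u : Fin r → S} (hu : ∀ i, u i ∈ N) :
    ∑ i, V.x t (a i) * u i ∈ V.Lx t A * N := by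
  exact Submodule.sum_mem _ fun i _ => Submodule.mul_mem_mul ⟨a i, ha i, rfl⟩ (hu i)

/-- Coordinates with respect to the second factor. -/
theorem Vars.exists_coord' (V : Vars k F S) {t : ℕ} {A : Dv k F} {N : Submodule k S} {r : ℕ}
    {b : Fin r → S} (hsp : N ≤ Submodule.span k (Set.range b)) {x : S}
    (hx : x ∈ V.Lx t A * N) : ∃ f : Fin r → F, (∀ i, f i ∈ L A) ∧
      x = ∑ i, V.x t (f i) * b i := by
  refine Submodule.mul_induction_on hx ?_ ?_
  · rintro m ⟨f, hf, rfl⟩ n hn
    obtain ⟨c, hc⟩ := (Submodule.mem_span_range_iff_exists_fun k).1 (hsp hn)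
    refine ⟨fun i => c i • f, fun i => (L A).smul_mem _ hf, ?_⟩
    show V.x t f * n = _
    rw [← hc, Finset.mul_sum]
    refine Finset.sum_congr rfl fun i _ => ?_
    rw [map_smul, smul_mul_assoc, mul_smul_comm]
  · rintro x y ⟨u, hu, rfl⟩ ⟨v, hv, rfl⟩
    refine ⟨fun i => u i + v i, fun i => (L A).add_mem (hu i) (hv i), ?_⟩
    rw [← Finset.sum_add_distrib]
    refine Finset.sum_congr rfl fun i _ => ?_
    rw [map_add, add_mul]

/-- `LinearDisjoint.linearIndependent_left_of_flat`. -/
theorem Vars.Disj.left {V : Vars k F S} {t : ℕ} (h : V.Disj t) {r : ℕ} {a : Fin r → F}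
    (ha : LinearIndependent k a) {u : Fin r → S} (hu : ∀ i, u i ∈ V.T t)
    (h0 : ∑ i, V.x t (a i) * u i = 0) : ∀ i, u i = 0 := by
  rcases subsingleton_or_nontrivial S with hS | hS
  · exact fun i => Subsingleton.elim _ _
  have hinj : Function.Injective (V.x t).toLinearMap := (V.x t).toRingHom.injective
  let m : Fin r → LinearMap.range (V.x t).toLinearMap := fun i => ⟨V.x t (a i), a i, rfl⟩
  have hm : LinearIndependent k m := by
    have h1 : LinearIndependent k ((LinearMap.range (V.x t).toLinearMap).subtype ∘ m) :=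
      ha.map' (V.x t).toLinearMap (LinearMap.ker_eq_bot.2 hinj)
    exact h1.of_comp _
  have hk := Submodule.LinearDisjoint.linearIndependent_left_of_flat h hm
  let n : Fin r →₀ ((Subalgebra.toSubmodule (V.T t)).restrictScalars k) :=
    Finsupp.equivFunOnFinite.symm fun i => ⟨u i, hu i⟩
  have hn : n = 0 := by
    rw [LinearMap.ker_eq_bot'] at hk
    refine hk n ?_
    rw [Submodule.mulLeftMap_apply, Finsupp.sum_fintype _ _ (fun i => by simp)]
    exact h0
  intro i
  have h2 := DFunLike.congr_fun hn i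
  exact congrArg Subtype.val h2

/-- `LinearDisjoint.linearIndependent_right_of_flat`; the homomorphism `x t` of the field `F` is
injective. -/
theorem Vars.Disj.right {V : Vars k F S} [Nontrivial S] {t : ℕ} (h : V.Disj t) {r : ℕ}
    {b : Fin r → S} (hb : LinearIndependent k b) (hbT : ∀ i, b i ∈ V.T t) {f : Fin r → F}
    (h0 : ∑ i, V.x t (f i) * b i = 0) : ∀ i, f i = 0 := by
  have hinj : Function.Injective (V.x t).toLinearMap := (V.x t).toRingHom.injective
  let m : Fin r → ((Subalgebra.toSubmodule (V.T t)).restrictScalars k) := fun i => ⟨b i, hbT i⟩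
  have hm : LinearIndependent k m := by
    have h1 : LinearIndependent k
        (((Subalgebra.toSubmodule (V.T t)).restrictScalars k).subtype ∘ m) := hb
    exact h1.of_comp _
  have hk := Submodule.LinearDisjoint.linearIndependent_right_of_flat h hm
  let n : Fin r →₀ (LinearMap.range (V.x t).toLinearMap) :=
    Finsupp.equivFunOnFinite.symm fun i => ⟨V.x t (f i), f i, rfl⟩
  have hn : n = 0 := by
    rw [LinearMap.ker_eq_bot'] at hk
    refine hk n ?_
    rw [Submodule.mulRightMap_apply, Finsupp.sum_fintype _ _ (fun i => by simp)]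
    exact h0
  intro i
  have h2 : V.x t (f i) = 0 := congrArg Subtype.val (DFunLike.congr_fun hn i)
  exact hinj (h2.trans (map_zero (V.x t)).symm)

/-- The products of two bases are a basis (`linearIndependent_mul_of_flat`, `LinearDisjoint.mono`).
-/
theorem Vars.Disj.finrank_mul {V : Vars k F S} [Nontrivial S] {t : ℕ} (h : V.Disj t) {A : Dv k F}
    {N : Submodule k S} (hN : ∀ u ∈ N, u ∈ V.T t) [FiniteDimensional k (L A)]
    [FiniteDimensional k N] : Module.finrank k (V.Lx t A * N : Submodule k S) =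
      ell A * Module.finrank k N := by
  have hinj : Function.Injective (V.x t).toLinearMap := (V.x t).toRingHom.injective
  have h1 : (V.Lx t A).LinearDisjoint N := by
    refine Submodule.LinearDisjoint.of_le_of_flat_right h ?_ ?_
    · rintro _ ⟨f, _, rfl⟩
      exact ⟨f, rfl⟩
    · exact fun u hu => hN u hu
  rw [← h1.mulMap.finrank_eq, Module.finrank_tensorProduct]
  congr 1
  exact ((Submodule.equivMapOfInjective (V.x t).toLinearMap hinj (L A)).finrank_eq).symm

end Pool.Agent.MPd118f9
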