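import Pool.Agent.Lib.MP_d118f9_ag.Iface1

/-!
# MP_d118f9_ag, block B: bundles (definitions)

`U` is a vector space over the function field `F` of a curve.  A bundle is a family `G` of finite
dimensional `k`-subspaces `G B` of `U`, `B` a divisor, with the formal properties of the spaces
`H^0(V(B))`, `V` a vector bundle.
-/

set_option autoImplicit false

noncomputable section

open Classical

namespace Pool.Agent.MPd118f9

/-- The divisor `E_c` of the zeros of `z - c`. -/
def Ec {k F : Type} [Field k] [Field F] [Algebra k F] (z : F) (c : k) : Dv k F :=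
  poles k (z - algebraMap k F c)⁻¹

/-- Bundles: `G B` is the space of sections of `V(B)`; `α` is the rank, and `dim G B = α deg B + β`
for `deg B ≥ b`. -/
structure IsBdl {k F U : Type} [Field k] [Field F] [Algebra k F] [AddCommGroup U] [Module k U]
    [Module F U] (G : Dv k F → Submodule k U) (α β b : ℤ) : Prop where
  mono : ∀ {B B' : Dv k F}, B ≤ B' → G B ≤ G B'
  smul : ∀ {f : F} {u : U} {B : Dv k F}, f ≠ 0 → u ∈ G B → f • u ∈ G (B - dv k f)
  inf : ∀ {u : U} {B B' : Dv k F}, u ∈ G B → u ∈ G B' → u ∈ G (B ⊓ B')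
  fin : ∀ B : Dv k F, FiniteDimensional k (G B)
  rr : ∀ {B : Dv k F}, b ≤ deg B → (Module.finrank k (G B) : ℤ) = α * deg B + β

/-- The constant `a₀` is good: for `deg D ≥ a₀` the formula of Riemann holds, `L(D)` contains a base
point free pencil, and `L(D - P)` is smaller than `L(D)` for every point `P`. -/
structure IsGood (k F : Type) [Field k] [Field F] [Algebra k F] (a₀ : ℤ) : Prop where
  pos : 0 ≤ a₀
  one_le : 1 ≤ a₀
  rr : ∀ {D : Dv k F}, a₀ ≤ deg D → (ell D : ℤ) = deg D + 1 - genus k F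
  pencil : ∀ {D : Dv k F}, a₀ ≤ deg D → ∃ u₁ ∈ L D, ∃ u₂ ∈ L D, u₁ ≠ 0 ∧ u₂ ≠ 0 ∧
    dv k u₁ ⊓ dv k u₂ = -D
  sep : ∀ {D : Dv k F} (P : Pt k F), a₀ ≤ deg D → ∃ a ∈ L D, a ∉ L (D - Finsupp.single P 1)

/-- A system of variables `x 0, x 1, …` and one more variable `y` in the commutative ring `S`:
`y = algebraMap F S`, `x t : F → S` are homomorphisms, `ρ t` is the specialisation `x t ↦ y`, and
`T t` is a subalgebra that contains the functions of `x 0, …, x (t-1), y`. -/
structure Vars (k F S : Type) [Field k] [Field F] [Algebra k F] [CommRing S] [Algebra k S]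
    [Algebra F S] where
  x : ℕ → F →ₐ[k] S
  ρ : ℕ → S →ₐ[F] S
  T : ℕ → Subalgebra F S
  mono : ∀ t, T t ≤ T (t + 1)
  x_mem : ∀ t f, x t f ∈ T (t + 1)
  ρ_fix : ∀ t, ∀ u ∈ T t, ρ t u = u
  ρ_x : ∀ t f, ρ t (x t f) = algebraMap F S f

section

variable {k F S : Type} [Field k] [Field F] [Algebra k F] [CommRing S] [Algebra k S]
  [Algebra F S] [IsScalarTower k F S]

/-- The variable `x t` is independent of the functions of `x 0, …, x (t-1), y`. -/
def Vars.Disj (V : Vars k F S) (t : ℕ) : Prop :=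
  Submodule.LinearDisjoint (LinearMap.range (V.x t).toLinearMap)
    ((Subalgebra.toSubmodule (V.T t)).restrictScalars k)

/-- The space of the functions `f(y)`, `f ∈ L(B)`. -/
def Ly (S : Type) [CommRing S] [Algebra k S] [Algebra F S] [IsScalarTower k F S]
    (B : Dv k F) : Submodule k S :=
  (L B).map (IsScalarTower.toAlgHom k F S).toLinearMap

/-- The space of the functions `f(x t)`, `f ∈ L(A)`. -/
def Vars.Lx (V : Vars k F S) (t : ℕ) (A : Dv k F) : Submodule k S :=
  (L A).map (V.x t).toLinearMap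

/-- The bundle of the functions with one more variable `x t`, poles in `x t` bounded by `A`, that
vanish for `x t = y`. -/
def Vars.Mk (V : Vars k F S) (t : ℕ) (A : Dv k F) (G : Dv k F → Submodule k S) (B : Dv k F) :
    Submodule k S :=
  (V.Lx t A * G B) ⊓ (LinearMap.ker (V.ρ t).toLinearMap).restrictScalars k

/-- The functions of `x 0, …, x (t-1), y`, with poles in `x i` bounded by `A i` and in `y` by `B`,
that vanish for `x i = y`, `i < t`. -/
def Vars.Fb (V : Vars k F S) (A : ℕ → Dv k F) : ℕ → Dv k F → Submodule k S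
  | 0 => Ly S
  | t + 1 => V.Mk t (A t) (V.Fb A t)

/-- Levels in the direction of `ζ`: `G₋ ≤ G ≤ G₊` with `G₊ = G + ζ G`. -/
structure IsLev (ζ : S) (Gm G Gp : Dv k F → Submodule k S) (b : ℤ) : Prop where
  le_m : ∀ {B u}, u ∈ Gm B → u ∈ G B
  le_p : ∀ {B u}, u ∈ G B → u ∈ Gp B
  mul_m : ∀ {B u}, u ∈ Gm B → ζ * u ∈ G B
  mul_p : ∀ {B u}, u ∈ G B → ζ * u ∈ Gp B
  gen : ∀ {B u}, b ≤ deg B → u ∈ Gp B → ∃ u₀ ∈ G B, ∃ u₁ ∈ G B, u = u₀ + ζ * u₁
  ker : ∀ {B u₀ u₁}, u₀ ∈ G B → u₁ ∈ G B → u₀ + ζ * u₁ = 0 → u₁ ∈ Gm B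

end

end Pool.Agent.MPd118f9
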