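import Pool.Agent.Lib.MP_d118f9_ag.B.Lev

/-!
# MP_d118f9_ag, block B: the bundles `Fb`
-/

set_option autoImplicit false

noncomputable section

open Classical

namespace Pool.Agent.MPd118f9

variable {k F S : Type} [Field k] [Field F] [Algebra k F]
  [CommRing S] [Algebra k S] [Algebra F S] [IsScalarTower k F S]

omit [IsScalarTower k F S] in
private theorem Fb_mul_le (V : Vars k F S) {t : ℕ} {A : Dv k F} {N : Submodule k S}
    (hN : ∀ u ∈ N, u ∈ V.T t) : ∀ u ∈ V.Lx t A * N, u ∈ V.T (t + 1) := by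
  intro u hu
  induction hu using Submodule.mul_induction_on' with
  | mem_mul_mem a ha b hb =>
    obtain ⟨f, -, rfl⟩ := Submodule.mem_map.1 ha
    exact (V.T (t + 1)).mul_mem (V.x_mem t f) (V.mono t (hN b hb))
  | add a _ b _ h1 h2 => exact (V.T (t + 1)).add_mem h1 h2

private theorem Fb_update_self {A : ℕ → Dv k F} (t : ℕ) (X : Dv k F) :
    ∀ l < t, Function.update A t X l = A l := by
  intro l hl
  rw [Function.update_of_ne (by omega)]

theorem Vars.Fb_le (V : Vars k F S) (A : ℕ → Dv k F) (t : ℕ) (B : Dv k F) :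
    ∀ u ∈ V.Fb A t B, u ∈ V.T t := by
  induction t with
  | zero =>
    intro u hu
    obtain ⟨f, -, rfl⟩ := Submodule.mem_map.1 hu
    exact (V.T 0).algebraMap_mem f
  | succ t ih =>
    intro u hu
    exact Fb_mul_le V ih u hu.1

theorem Vars.Fb_congr (V : Vars k F S) {A A' : ℕ → Dv k F} {t : ℕ} (h : ∀ l < t, A l = A' l) :
    V.Fb A t = V.Fb A' t := by
  induction t with
  | zero => rfl
  | succ t ih =>
    have h1 := ih fun l hl => h l (by omega)
    change V.Mk t (A t) (V.Fb A t) = V.Mk t (A' t) (V.Fb A' t)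
    rw [h1, h t (by omega)]

/-- The elements of `Fb` vanish for `x l = y`. -/
theorem Vars.ρ_Fb (V : Vars k F S) (hρ : ∀ s t f, s ≠ t → V.ρ s (V.x t f) = V.x t f)
    (A : ℕ → Dv k F) {l t : ℕ} (hl : l < t) (B : Dv k F) {u : S} (hu : u ∈ V.Fb A t B) :
    V.ρ l u = 0 := by
  induction t generalizing u with
  | zero => exact absurd hl (Nat.not_lt_zero l)
  | succ t ih =>
    by_cases hlt : l = t
    · subst hlt
      exact hu.2
    · have hl' : l < t := by omega
      have h1 : u ∈ V.Lx t (A t) * V.Fb A t B := hu.1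
      clear hu
      induction h1 using Submodule.mul_induction_on' with
      | mem_mul_mem a ha b hb =>
        obtain ⟨f, -, rfl⟩ := Submodule.mem_map.1 ha
        rw [map_mul, ih hl' hb, mul_zero]
      | add a _ b _ h1 h2 => rw [map_add, h1, h2, add_zero]

variable [IsAlgClosed k] [CharZero k]

/-- Induction on `t` with `isBdl_Ly` and `isBdl_Mk`. -/
theorem Vars.isBdl_Fb (hF : IsCurve k F) {a₀ : ℤ} (ha : IsGood k F a₀) (V : Vars k F S)
    [Nontrivial S] (A : ℕ → Dv k F) (t : ℕ) (hV : ∀ s < t, V.Disj s)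
    (hA : ∀ s < t, a₀ ≤ deg (A s)) :
    ∃ α β : ℤ, IsBdl (V.Fb A t) α β ((t + 1) * a₀) := by
  have hpos := ha.pos
  induction t with
  | zero =>
    refine ⟨1, 1 - genus k F, ?_⟩
    have e1 : (((0 : ℕ) : ℤ) + 1) * a₀ = a₀ := by
      rw [Nat.cast_zero, zero_add, one_mul]
    rw [e1]
    exact hF.isBdl_Ly ha S
  | succ t ih =>
    obtain ⟨α, β, h⟩ := ih (fun s hs => hV s (by omega)) (fun s hs => hA s (by omega))
    have hb : (0 : ℤ) ≤ ((t : ℤ) + 1) * a₀ := mul_nonneg (by positivity) hpos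
    obtain ⟨α', β', h'⟩ := V.isBdl_Mk hF ha (hV t (by omega)) h (fun B => V.Fb_le A t B)
      (hA t (by omega)) hb
    have e1 : (((t + 1 : ℕ) : ℤ) + 1) * a₀ = ((t : ℤ) + 1) * a₀ + a₀ := by
      push_cast
      ring
    rw [e1]
    exact ⟨α', β', h'⟩

/-- Induction on `t` with `isLev_Mk` (`l < t`), `isLev_new` (`l = t`) and `Fb_congr`. -/
theorem Vars.isLev_Fb (hF : IsCurve k F) {a₀ : ℤ} (ha : IsGood k F a₀) (V : Vars k F S)
    [Nontrivial S] {z : F} (hz : ∀ c : k, z ≠ algebraMap k F c) (A : ℕ → Dv k F) {l t : ℕ}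
    (hl : l < t) (hV : ∀ s < t, V.Disj s) (hA : ∀ s < t, a₀ + deg (poles k z) ≤ deg (A s)) :
    IsLev (V.x l z) (V.Fb (Function.update A l (A l - poles k z)) t) (V.Fb A t)
      (V.Fb (Function.update A l (A l + poles k z)) t) ((t + 1) * a₀) := by
  have hpos := ha.pos
  have hE := hF.deg_poles_pos hz
  induction t with
  | zero => exact absurd hl (Nat.not_lt_zero l)
  | succ t ih =>
    have hA1 : ∀ s < t, a₀ ≤ deg (A s) := fun s hs => by
      have := hA s (by omega)
      linarith
    have hV1 : ∀ s < t, V.Disj s := fun s hs => hV s (by omega)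
    have e1 : (((t + 1 : ℕ) : ℤ) + 1) * a₀ = ((t : ℤ) + 1) * a₀ + a₀ := by
      push_cast
      ring
    obtain ⟨α, β, hG⟩ := V.isBdl_Fb hF ha A t hV1 hA1
    rw [e1]
    by_cases hlt : l = t
    · subst hlt
      have e2 : ∀ X : Dv k F, V.Fb (Function.update A l X) (l + 1) = V.Mk l X (V.Fb A l) := by
        intro X
        change V.Mk l (Function.update A l X l) (V.Fb (Function.update A l X) l) = _
        rw [Function.update_self, V.Fb_congr (Fb_update_self l X)]
      rw [e2, e2]
      exact V.isLev_new hF ha (hV l (by omega)) hz hG (fun B => V.Fb_le A l B) (hA l (by omega))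
    · have hl' : l < t := by omega
      have hlev := ih hl' hV1 (fun s hs => hA s (by omega))
      have e2 : ∀ X : Dv k F, V.Fb (Function.update A l X) (t + 1) =
          V.Mk t (A t) (V.Fb (Function.update A l X) t) := by
        intro X
        change V.Mk t (Function.update A l X t) (V.Fb (Function.update A l X) t) = _
        rw [Function.update_of_ne (by omega)]
      rw [e2, e2]
      have hAm : ∀ s < t, a₀ ≤ deg (Function.update A l (A l - poles k z) s) := by
        intro s hs
        by_cases hsl : s = l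
        · subst hsl
          rw [Function.update_self, deg_sub]
          have := hA s (by omega)
          linarith
        · rw [Function.update_of_ne hsl]
          exact hA1 s hs
      obtain ⟨α', β', hGm⟩ := V.isBdl_Fb hF ha _ t hV1 hAm
      have hζ : V.x l z ∈ V.T t :=
        monotone_nat_of_le_succ V.mono (Nat.succ_le_of_lt hl') (V.x_mem l z)
      exact V.isLev_Mk hF ha (hV t (by omega)) hζ hlev hGm
        (fun f u B hf hu => hG.smul hf hu) (fun B B' h => hG.mono h) (fun B => V.Fb_le A t B)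
        (by have := hA t (by omega); linarith) (by linarith)

/-- The same in the direction of `y`: `IsBdl.pencil_surj` with the pencil `1, z`. -/
theorem Vars.gen_y (hF : IsCurve k F) {a₀ : ℤ} (ha : IsGood k F a₀) (V : Vars k F S)
    [Nontrivial S] {z : F} (hz : ∀ c : k, z ≠ algebraMap k F c) (A : ℕ → Dv k F) {t : ℕ}
    (hV : ∀ s < t, V.Disj s) (hA : ∀ s < t, a₀ ≤ deg (A s)) {B : Dv k F}
    (hB : (t + 1) * a₀ + deg (poles k z) ≤ deg B) {u : S} (hu : u ∈ V.Fb A t (B + poles k z)) :
    ∃ u₀ ∈ V.Fb A t B, ∃ u₁ ∈ V.Fb A t B, u = u₀ + algebraMap F S z * u₁ := by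
  have hE := hF.deg_poles_pos hz
  have hz0 : z ≠ 0 := by
    intro h
    refine hz 0 ?_
    rw [h, map_zero]
  obtain ⟨α, β, hG⟩ := V.isBdl_Fb hF ha A t hV hA
  have h0 : (0 : Dv k F) ≤ poles k z := le_sup_right
  have h1 : (1 : F) ∈ L (poles k z) := one_mem_L h0
  have h2 : z ∈ L (poles k z) := by
    rw [mem_L_of_ne hz0]
    intro P
    have h3 : (-dv k z) P ≤ poles k z P := (le_sup_left : -dv k z ≤ poles k z) P
    rw [Finsupp.neg_apply, hF.dv_apply hz0] at h3
    linarith
  obtain ⟨g₁, hg₁, g₂, hg₂, h⟩ := hG.pencil_surj hF hE.le hB h1 h2 one_ne_zero hz0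
    (hF.pencil_one hz0) hu
  refine ⟨g₁, hg₁, g₂, hg₂, ?_⟩
  rw [h, one_smul, Algebra.smul_def]

end Pool.Agent.MPd118f9
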