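import Pool.Agent.Lib.MP_d118f9_ag.B.Defs

/-!
# MP_d118f9_ag, block B: existence of a good constant, the bundle `L`
-/

set_option autoImplicit false

noncomputable section

open Classical

namespace Pool.Agent.MPd118f9

variable {k F : Type} [Field k] [IsAlgClosed k] [CharZero k] [Field F] [Algebra k F]

private theorem exists_mem_of_ell_lt (hF : IsCurve k F) {D D' : Dv k F} (h : ell D' < ell D) :
    ∃ a ∈ L D, a ∉ L D' := by
  by_contra hc
  push Not at hc
  haveI := hF.finDim D'
  exact absurd (Submodule.finrank_mono (show L D ≤ L D' from hc)) (not_le.2 h)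

private theorem exists_sec (hF : IsCurve k F) {a₀ : ℤ}
    (hlt : ∀ (D : Dv k F) (P : Pt k F), a₀ ≤ deg D → ell (D - Finsupp.single P 1) < ell D)
    (hpos : ∀ D : Dv k F, a₀ ≤ deg D → 0 < ell D) {D : Dv k F} (hD : a₀ ≤ deg D)
    (Z : Finset (Pt k F)) :
    ∃ u ∈ L D, u ≠ 0 ∧ ∀ P ∈ Z, u ∉ L (D - Finsupp.single P 1) := by
  haveI : Infinite k := inferInstance
  let p : Option Z → Subspace k (L D) := fun o =>
    match o with
    | none => ⊥
    | some P => (L (D - Finsupp.single (P : Pt k F) 1)).comap (L D).subtype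
  have hne : ⋃ i, (p i : Set (L D)) ≠ Set.univ := by
    intro hc
    obtain ⟨i, hi⟩ := Subspace.exists_eq_top_of_iUnion_eq_univ hc
    match i, hi with
    | none, hi =>
      have h0 : ell D = 0 := by
        have : (⊥ : Submodule k (L D)) = ⊤ := hi
        have h2 : Module.finrank k (L D) = Module.finrank k (⊤ : Submodule k (L D)) :=
          (finrank_top k (L D)).symm
        rw [← this, finrank_bot] at h2
        exact h2
      have := hpos D hD
      omega
    | some P, hi =>
      have hle : L D ≤ L (D - Finsupp.single (P : Pt k F) 1) := by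
        intro x hx
        have : (⟨x, hx⟩ : L D) ∈ (L (D - Finsupp.single (P : Pt k F) 1)).comap (L D).subtype := by
          have hi' : (L (D - Finsupp.single (P : Pt k F) 1)).comap (L D).subtype = ⊤ := hi
          rw [hi']
          exact Submodule.mem_top
        exact this
      haveI := hF.finDim (D - Finsupp.single (P : Pt k F) 1)
      exact absurd (Submodule.finrank_mono hle) (not_le.2 (hlt D P hD))
  obtain ⟨x, hx⟩ := (Set.ne_univ_iff_exists_notMem _).1 hne
  rw [Set.mem_iUnion] at hx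
  push Not at hx
  refine ⟨x, x.2, ?_, fun P hP => ?_⟩
  · intro h0
    apply hx none
    show x ∈ (⊥ : Submodule k (L D))
    rw [Submodule.mem_bot]
    exact Subtype.ext h0
  · exact hx (some ⟨P, hP⟩)

private theorem ord_eq_of_sep {A : Dv k F} {P : Pt k F} {a : F} (h0 : a ≠ 0) (ha : a ∈ L A)
    (ha' : a ∉ L (A - Finsupp.single P 1)) : P.ord a = -A P := by
  rw [mem_L_of_ne h0] at ha ha'
  push Not at ha'
  obtain ⟨Q, hQ⟩ := ha'
  have hQ2 := ha Q
  rw [Finsupp.sub_apply] at hQ
  by_cases hPQ : Q = P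
  · subst hPQ
    rw [Finsupp.single_eq_same] at hQ
    omega
  · rw [Finsupp.single_apply, if_neg (fun e => hPQ e.symm)] at hQ
    omega

/-- There is a good constant.  With `c₀` of `IsCurve.riemann` take
`a₀ = max (c₀ + 1) (genus + 2)`.  `sep`: dimensions.  `pencil`: choose `u₁ ∈ L(D)`, `u₁ ≠ 0`; the
points `P` with `P.ord u₁ ≠ -D P` are finitely many; choose `u₂ ∈ L(D)` outside the finitely many
proper subspaces `L(D - P)` (for these `P`) and `0` (a vector space over an infinite field is not
a finite union of proper subspaces). -/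
theorem IsCurve.exists_isGood (hF : IsCurve k F) : ∃ a₀ : ℤ, IsGood k F a₀ := by
  obtain ⟨c₀, hc₀⟩ := hF.riemann
  set a₀ : ℤ := max (c₀ + 1) (genus k F + 2) with ha₀
  have h1 : c₀ + 1 ≤ a₀ := le_max_left _ _
  have h2 : (genus k F : ℤ) + 2 ≤ a₀ := le_max_right _ _
  have hlt : ∀ (D : Dv k F) (P : Pt k F), a₀ ≤ deg D →
      ell (D - Finsupp.single P 1) < ell D := by
    intro D P hD
    have e1 := hc₀ D (by linarith)
    have e2 := hc₀ (D - Finsupp.single P 1) (by rw [deg_sub, deg_single]; linarith)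
    rw [deg_sub, deg_single] at e2
    omega
  have hpos : ∀ D : Dv k F, a₀ ≤ deg D → 0 < ell D := by
    intro D hD
    have e1 := hc₀ D (by linarith)
    omega
  refine ⟨a₀, ⟨by omega, by omega, fun {D} hD => hc₀ D (by linarith), fun {D} hD => ?_,
    fun {D} P hD => exists_mem_of_ell_lt hF (hlt D P hD)⟩⟩
  obtain ⟨u₁, hu₁, n1, -⟩ := exists_sec hF hlt hpos hD ∅
  have hZ : {P : Pt k F | P.ord u₁ ≠ -D P}.Finite := by
    refine ((hF.finite_ord n1).union D.support.finite_toSet).subset ?_
    intro P hP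
    by_contra hc
    rw [Set.mem_union, not_or] at hc
    obtain ⟨hc1, hc2⟩ := hc
    have e1 : P.ord u₁ = 0 := not_not.1 hc1
    have e2 : D P = 0 := Finsupp.notMem_support_iff.1 hc2
    apply hP
    rw [e1, e2, neg_zero]
  obtain ⟨u₂, hu₂, n2, hs⟩ := exists_sec hF hlt hpos hD hZ.toFinset
  refine ⟨u₁, hu₁, u₂, hu₂, n1, n2, ?_⟩
  ext P
  rw [Finsupp.inf_apply, hF.dv_apply n1, hF.dv_apply n2, Finsupp.neg_apply]
  have g1 := (mem_L_of_ne n1).1 hu₁ P
  have g2 := (mem_L_of_ne n2).1 hu₂ P
  by_cases hP : P.ord u₁ = -D P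
  · rw [hP]
    exact inf_eq_left.2 g2
  · have := ord_eq_of_sep n2 hu₂ (hs P (hZ.mem_toFinset.2 hP))
    rw [this]
    exact inf_eq_right.2 g1

/-- `L` is a bundle in `F`. -/
theorem IsCurve.isBdl_L (hF : IsCurve k F) {a₀ : ℤ} (ha : IsGood k F a₀) :
    IsBdl (U := F) (fun B : Dv k F => L B) 1 (1 - genus k F) a₀ where
  mono h := L_mono h
  smul {f u B} hf hu := by
    show f * u ∈ L (B - dv k f)
    rw [hF.mul_mem_iff hf, sub_add_cancel]
    exact hu
  inf h h' := L_inf h h'
  fin B := hF.finDim B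
  rr {B} hB := by
    have := ha.rr hB
    unfold ell at this
    linarith

/-- The pencil `1, z`. -/
theorem IsCurve.pencil_one (hF : IsCurve k F) {z : F} (hz : z ≠ 0) :
    dv k (1 : F) ⊓ dv k z = -poles k z := by
  ext P
  have h1 : P.ord (1 : F) = 0 := by
    rw [← map_one (algebraMap k F)]
    exact P.ord_algebraMap 1
  unfold poles
  rw [Finsupp.inf_apply, Finsupp.neg_apply, Finsupp.sup_apply, Finsupp.neg_apply,
    Finsupp.zero_apply, hF.dv_apply one_ne_zero, h1, hF.dv_apply hz]
  omega

/-- The same bundle in a ring `S` that contains `F`. -/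
theorem IsCurve.isBdl_Ly (hF : IsCurve k F) {a₀ : ℤ} (ha : IsGood k F a₀) (S : Type) [CommRing S]
    [Nontrivial S] [Algebra k S] [Algebra F S] [IsScalarTower k F S] :
    IsBdl (Ly S : Dv k F → Submodule k S) 1 (1 - genus k F) a₀ := by
  have hinj : Function.Injective (IsScalarTower.toAlgHom k F S).toLinearMap := by
    intro x y hxy
    exact (algebraMap F S).injective hxy
  refine ⟨fun {B B'} h => Submodule.map_mono (L_mono h), ?_, ?_, fun B => ?_, fun {B} hB => ?_⟩
  · rintro f _ B hf ⟨g, hg, rfl⟩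
    refine ⟨f * g, (hF.isBdl_L ha).smul hf hg, ?_⟩
    show algebraMap F S (f * g) = f • algebraMap F S g
    rw [map_mul, Algebra.smul_def]
  · rintro _ B B' ⟨g, hg, rfl⟩ ⟨g', hg', h⟩
    have : g' = g := hinj h
    subst this
    exact ⟨g', L_inf hg hg', rfl⟩
  · haveI := hF.finDim B
    unfold Ly
    infer_instance
  · have h1 := (hF.isBdl_L ha).rr hB
    have h2 : Module.finrank k (Ly S B : Submodule k S) = Module.finrank k (L B) :=
      (Submodule.equivMapOfInjective _ hinj (L B)).finrank_eq.symm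
    rw [h2]
    exact h1

end Pool.Agent.MPd118f9
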