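import Pool.Agent.Lib.MP_d118f9_ag.B.Defs

/-!
# MP_d118f9_ag, block B: the model, the tensor product of `T + 1` copies of `F`
-/

set_option autoImplicit false

noncomputable section

open Classical

namespace Pool.Agent.MPd118f9

/-- The tensor product over `k` of `T + 1` copies of `F`. -/
def SS (k F : Type) [Field k] [Field F] [Algebra k F] (T : ℕ) : Type :=
  PiTensorProduct k fun _ : Fin (T + 1) => F

section

variable (k F : Type) [Field k] [Field F] [Algebra k F] (T : ℕ)

instance : CommRing (SS k F T) :=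
  inferInstanceAs (CommRing (PiTensorProduct k fun _ : Fin (T + 1) => F))

instance : Algebra k (SS k F T) :=
  inferInstanceAs (Algebra k (PiTensorProduct k fun _ : Fin (T + 1) => F))

variable {k F T}

/-- The variable number `l`. -/
def SS.ι (l : Fin (T + 1)) : F →ₐ[k] SS k F T :=
  PiTensorProduct.singleAlgHom (R := k) (A := fun _ : Fin (T + 1) => F) l

variable (k F T)

/-- The last variable is `y`. -/
instance : Algebra F (SS k F T) :=
  ((SS.ι (Fin.last T) : F →ₐ[k] SS k F T) : F →+* SS k F T).toAlgebra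

instance : IsScalarTower k F (SS k F T) :=
  IsScalarTower.of_algebraMap_eq fun c => by
    show algebraMap k (SS k F T) c = SS.ι (Fin.last T) (algebraMap k F c)
    rw [AlgHom.commutes]

end

section

variable {k F : Type} [Field k] [Field F] [Algebra k F] {T : ℕ}

theorem SS.algebraMap_eq (f : F) : algebraMap F (SS k F T) f = SS.ι (Fin.last T) f := rfl

/-- The pure tensors. -/
private def tp (f : Fin (T + 1) → F) : SS k F T := PiTensorProduct.tprod k f

private theorem prod_ι (f : Fin (T + 1) → F) :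
    ∏ m, (SS.ι m (f m) : SS k F T) = tp f := by
  have h1 := PiTensorProduct.tprod_prod (R := k) (A := fun _ : Fin (T + 1) => F) Finset.univ
    (fun m => Pi.mulSingle m (f m))
  rw [Finset.univ_prod_mulSingle] at h1
  exact h1.symm

/-- A linear map that is determined by a multilinear one. -/
theorem SS.exists_lift {M : Type} [AddCommGroup M] [Module k M]
    (g : MultilinearMap k (fun _ : Fin (T + 1) => F) M) :
    ∃ Φ : SS k F T →ₗ[k] M, ∀ f : Fin (T + 1) → F, Φ (∏ m, SS.ι m (f m)) = g f := by
  refine ⟨PiTensorProduct.lift g, fun f => ?_⟩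
  rw [prod_ι]
  exact PiTensorProduct.lift.tprod f

/-- The elements are sums of products. -/
theorem SS.span_prod : Submodule.span k
    (Set.range fun f : Fin (T + 1) → F => ∏ m, (SS.ι m (f m) : SS k F T)) = ⊤ := by
  simp only [prod_ι]
  exact PiTensorProduct.span_tprod_eq_top

private theorem lin_ext {M : Type} [AddCommGroup M] [Module k M] {Φ Ψ : SS k F T →ₗ[k] M}
    (h : ∀ f : Fin (T + 1) → F, Φ (∏ m, SS.ι m (f m)) = Ψ (∏ m, SS.ι m (f m))) : Φ = Ψ := by
  refine LinearMap.ext_on_range SS.span_prod h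

/-- Homomorphisms are determined by the images of the variables. -/
theorem SS.exists_hom {R : Type} [CommRing R] [Algebra k R] (g : Fin (T + 1) → (F →ₐ[k] R)) :
    ∃ Φ : SS k F T →ₐ[k] R, ∀ (m : Fin (T + 1)) (f : F), Φ (SS.ι m f) = g m f := by
  let G : MultilinearMap k (fun _ : Fin (T + 1) => F) R :=
    (MultilinearMap.mkPiAlgebra k (Fin (T + 1)) R).compLinearMap fun m => (g m).toLinearMap
  have hG : ∀ f : Fin (T + 1) → F, G f = ∏ m, g m (f m) := fun f => rfl
  refine ⟨PiTensorProduct.liftAlgHom G ?_ ?_, fun m f => ?_⟩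
  · rw [hG]
    simp
  · intro x y
    rw [hG, hG, hG]
    simp [Finset.prod_mul_distrib]
  · have h1 : PiTensorProduct.liftAlgHom G (by rw [hG]; simp)
        (by intro x y; rw [hG, hG, hG]; simp [Finset.prod_mul_distrib])
        (PiTensorProduct.tprod k (Pi.mulSingle m f)) = G (Pi.mulSingle m f) :=
      PiTensorProduct.lift.tprod _
    refine h1.trans ?_
    rw [hG, Fintype.prod_eq_single m, Pi.mulSingle_eq_same]
    intro m' hm'
    rw [Pi.mulSingle_eq_of_ne hm', map_one]

theorem SS.hom_ext {R : Type} [CommRing R] [Algebra k R] {Φ Ψ : SS k F T →ₐ[k] R}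
    (h : ∀ (m : Fin (T + 1)) (f : F), Φ (SS.ι m f) = Ψ (SS.ι m f)) : Φ = Ψ := by
  have h1 : Φ.toLinearMap = Ψ.toLinearMap := by
    refine lin_ext fun f => ?_
    simp only [AlgHom.toLinearMap_apply, map_prod, h]
  exact AlgHom.toLinearMap_injective h1

private theorem ι_mul (l : Fin (T + 1)) (g : F) (f : Fin (T + 1) → F) :
    (SS.ι l g : SS k F T) * ∏ m, SS.ι m (f m) =
      ∏ m, SS.ι m (Function.update f l (g * f l) m) := by
  rw [← Finset.mul_prod_erase Finset.univ (fun m => (SS.ι m (f m) : SS k F T)) (Finset.mem_univ l),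
    ← Finset.mul_prod_erase Finset.univ
      (fun m => (SS.ι m (Function.update f l (g * f l) m) : SS k F T)) (Finset.mem_univ l),
    Function.update_self, map_mul, mul_assoc]
  congr 2
  refine Finset.prod_congr rfl fun m hm => ?_
  rw [Function.update_of_ne (Finset.ne_of_mem_erase hm)]

/-- Functionals `φ m` on all variables but one give a map to `F` that is linear over the functions
of the variable `l`.  For nontriviality take `φ` with `φ 1 = 1`. -/
theorem SS.exists_contr (l : Fin (T + 1)) (φ : Fin (T + 1) → (F →ₗ[k] k)) :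
    ∃ Φ : SS k F T →ₗ[k] F,
      (∀ f : Fin (T + 1) → F, Φ (∏ m, SS.ι m (f m)) =
        algebraMap k F (∏ m ∈ Finset.univ.erase l, φ m (f m)) * f l) ∧
      ∀ (g : F) (u : SS k F T), Φ (SS.ι l g * u) = g * Φ u := by
  obtain ⟨Φ, hΦ⟩ := SS.exists_lift (T := T)
    ((MultilinearMap.mkPiAlgebra k (Fin (T + 1)) F).compLinearMap fun m =>
      if m = l then LinearMap.id else (Algebra.linearMap k F).comp (φ m))
  have h1 : ∀ f : Fin (T + 1) → F, Φ (∏ m, SS.ι m (f m)) =
      algebraMap k F (∏ m ∈ Finset.univ.erase l, φ m (f m)) * f l := by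
    intro f
    rw [hΦ, MultilinearMap.compLinearMap_apply, MultilinearMap.mkPiAlgebra_apply,
      ← Finset.mul_prod_erase Finset.univ _ (Finset.mem_univ l), if_pos rfl, LinearMap.id_apply,
      mul_comm, map_prod]
    congr 1
    refine Finset.prod_congr rfl fun m hm => ?_
    rw [if_neg (Finset.ne_of_mem_erase hm)]
    rfl
  refine ⟨Φ, h1, fun g u => ?_⟩
  have h2 : Φ ∘ₗ LinearMap.mulLeft k (SS.ι l g) = LinearMap.mulLeft k g ∘ₗ Φ := by
    refine lin_ext fun f => ?_
    simp only [LinearMap.comp_apply, LinearMap.mulLeft_apply]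
    rw [ι_mul, h1, h1, Function.update_self]
    have h3 : ∏ m ∈ Finset.univ.erase l, φ m (Function.update f l (g * f l) m) =
        ∏ m ∈ Finset.univ.erase l, φ m (f m) :=
      Finset.prod_congr rfl fun m hm => by
        rw [Function.update_of_ne (Finset.ne_of_mem_erase hm)]
    rw [h3]
    ring
  exact LinearMap.congr_fun h2 u

instance : Nontrivial (SS k F T) := by
  obtain ⟨Φ, -⟩ := SS.exists_hom (T := T) (R := F) fun _ => AlgHom.id k F
  exact Φ.toRingHom.domain_nontrivial

/-- The coefficient with respect to the functional `ψ` of the variable `t`. -/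
private theorem exists_coef (t : Fin (T + 1)) (ψ : F →ₗ[k] k) :
    ∃ Ψ : SS k F T →ₗ[k] SS k F T, (∀ f, Ψ (SS.ι t f) = ψ f • 1) ∧
      ∀ m ≠ t, ∀ (g : F) (u : SS k F T), Ψ (u * SS.ι m g) = Ψ u * SS.ι m g := by
  obtain ⟨Ψ, hΨ⟩ := SS.exists_lift (T := T)
    ((MultilinearMap.mkPiAlgebra k (Fin (T + 1)) (SS k F T)).compLinearMap fun m =>
      if m = t then (Algebra.linearMap k (SS k F T)).comp ψ else (SS.ι m).toLinearMap)
  have h1 : ∀ f : Fin (T + 1) → F, Ψ (∏ m, SS.ι m (f m)) =
      algebraMap k (SS k F T) (ψ (f t)) * ∏ m ∈ Finset.univ.erase t, SS.ι m (f m) := by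
    intro f
    rw [hΨ, MultilinearMap.compLinearMap_apply, MultilinearMap.mkPiAlgebra_apply,
      ← Finset.mul_prod_erase Finset.univ _ (Finset.mem_univ t), if_pos rfl]
    congr 1
    refine Finset.prod_congr rfl fun m hm => ?_
    rw [if_neg (Finset.ne_of_mem_erase hm)]
    rfl
  refine ⟨Ψ, fun f => ?_, fun m hm g u => ?_⟩
  · have h2 : (SS.ι t f : SS k F T) = ∏ m, SS.ι m ((Pi.mulSingle t f : Fin (T + 1) → F) m) := by
      rw [Fintype.prod_eq_single t, Pi.mulSingle_eq_same]
      intro m hm
      rw [Pi.mulSingle_eq_of_ne hm, map_one]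
    rw [h2, h1, Pi.mulSingle_eq_same, Algebra.smul_def]
    congr 1
    refine Finset.prod_eq_one fun m hm => ?_
    rw [Pi.mulSingle_eq_of_ne (Finset.ne_of_mem_erase hm), map_one]
  · have h2 : Ψ ∘ₗ LinearMap.mulLeft k (SS.ι m g) = LinearMap.mulLeft k (SS.ι m g) ∘ₗ Ψ := by
      refine lin_ext fun f => ?_
      simp only [LinearMap.comp_apply, LinearMap.mulLeft_apply]
      rw [ι_mul, h1, h1, Function.update_of_ne hm.symm]
      have hmt : m ∈ Finset.univ.erase t := Finset.mem_erase.2 ⟨hm, Finset.mem_univ m⟩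
      rw [← Finset.mul_prod_erase _ (fun m' => (SS.ι m' (f m') : SS k F T)) hmt,
        ← Finset.mul_prod_erase _
          (fun m' => (SS.ι m' (Function.update f m (g * f m) m') : SS k F T)) hmt,
        Function.update_self, map_mul]
      have h3 : ∏ m' ∈ (Finset.univ.erase t).erase m,
          (SS.ι m' (Function.update f m (g * f m) m') : SS k F T) =
          ∏ m' ∈ (Finset.univ.erase t).erase m, SS.ι m' (f m') :=
        Finset.prod_congr rfl fun m' hm' => by
          rw [Function.update_of_ne (Finset.ne_of_mem_erase hm')]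
      rw [h3]
      ring
    have h3 := LinearMap.congr_fun h2 u
    simp only [LinearMap.comp_apply, LinearMap.mulLeft_apply] at h3
    rw [mul_comm u, h3, mul_comm]

/-- **The model.**  `x l = ι l` for `l < T` (and `y` for `l ≥ T`); `ρ l` maps the variable `l` to
the last one and fixes the other variables; the subalgebra `T t` is generated over `F` (last
variable) by the functions of the variables `l < t`.  `Disj`: let `e` be a `k`-basis of `F`; a
relation `∑ x_t(e i) u i = 0`, `u i ∈ T t`, is mapped by the linear map `∏ ι_m(f_m) ↦ e_i^*(f_t)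
∏_(m ≠ t) ι_m(f_m)`, which is linear over `T t`, to `u i = 0` (`LinearDisjoint.of_basis_left`).
The homomorphisms `σ l` map the last variable to the variable `l` and fix the others;
`σ l ∘ ρ l = σ l`. -/
theorem SS.exists_vars (k F : Type) [Field k] [Field F] [Algebra k F] (T : ℕ) :
    ∃ V : Vars k F (SS k F T),
      (∀ (l : Fin T) (f : F), V.x l f = SS.ι l.castSucc f) ∧
      (∀ t < T, V.Disj t) ∧
      (∀ s t f, s ≠ t → V.ρ s (V.x t f) = V.x t f) ∧
      ∀ l : Fin T, ∃ σ : SS k F T →ₐ[k] SS k F T,
        (∀ f, σ (SS.ι (Fin.last T) f) = SS.ι l.castSucc f) ∧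
        (∀ (m : Fin T) (f : F), σ (SS.ι m.castSucc f) = SS.ι m.castSucc f) ∧
        ∀ u, σ (V.ρ l u) = σ u := by
  choose R hR using fun t : ℕ => SS.exists_hom (k := k) (F := F) (T := T) (R := SS k F T)
    fun m => if m.val = t then SS.ι (Fin.last T) else SS.ι m
  have hRl : ∀ (t : ℕ) (f : F), R t (SS.ι (Fin.last T) f) = SS.ι (Fin.last T) f := by
    intro t f
    rw [hR]
    split_ifs <;> rfl
  have hRs : ∀ (t : ℕ) (m : Fin (T + 1)) (f : F), m.val ≠ t → R t (SS.ι m f) = SS.ι m f := by
    intro t m f h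
    rw [hR, if_neg h]
  have hRe : ∀ (t : ℕ) (m : Fin (T + 1)) (f : F), m.val = t →
      R t (SS.ι m f) = SS.ι (Fin.last T) f := by
    intro t m f h
    rw [hR, if_pos h]
  let X : ℕ → F →ₐ[k] SS k F T := fun t =>
    if h : t < T then SS.ι (Fin.castSucc ⟨t, h⟩) else SS.ι (Fin.last T)
  have hX1 : ∀ (t : ℕ) (h : t < T), X t = SS.ι (Fin.castSucc ⟨t, h⟩) := fun t h => dif_pos h
  have hX2 : ∀ (t : ℕ), ¬ t < T → X t = SS.ι (Fin.last T) := fun t h => dif_neg h
  let ρ : ℕ → SS k F T →ₐ[F] SS k F T := fun t =>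
    { (R t).toRingHom with commutes' := fun f => hRl t f }
  have hρ : ∀ t u, ρ t u = R t u := fun t u => rfl
  have hρX : ∀ s t f, s ≠ t → ρ s (X t f) = X t f := by
    intro s t f hst
    rw [hρ]
    by_cases h : t < T
    · rw [hX1 t h]
      exact hRs s _ f (fun hh => hst hh.symm)
    · rw [hX2 t h]
      exact hRl s f
  let V : Vars k F (SS k F T) :=
    { x := X
      ρ := ρ
      T := fun t => Algebra.adjoin F {u | ∃ l < t, ∃ f, X l f = u}
      mono := fun t => Algebra.adjoin_mono fun u ⟨l, hl, f, hf⟩ =>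
        ⟨l, hl.trans t.lt_succ_self, f, hf⟩
      x_mem := fun t f => Algebra.subset_adjoin ⟨t, t.lt_succ_self, f, rfl⟩
      ρ_fix := by
        intro t u hu
        have h1 : Algebra.adjoin F {u | ∃ l < t, ∃ f, X l f = u} ≤
            AlgHom.equalizer (ρ t) (AlgHom.id F (SS k F T)) := by
          refine Algebra.adjoin_le ?_
          rintro _ ⟨l, hl, f, rfl⟩
          exact hρX t l f hl.ne'
        exact h1 hu
      ρ_x := by
        intro t f
        rw [hρ]
        by_cases h : t < T
        · rw [hX1 t h]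
          exact hRe t _ f rfl
        · rw [hX2 t h]
          exact hRl t f }
  refine ⟨V, fun l f => ?_, fun t ht => ?_, hρX, fun l => ?_⟩
  · have h1 : V.x l = SS.ι l.castSucc := hX1 l l.2
    rw [h1]
  · have hinj : Function.Injective (V.x t).toLinearMap := (V.x t).toRingHom.injective
    have hxt : V.x t = SS.ι (Fin.castSucc ⟨t, ht⟩) := hX1 t ht
    let e := Module.Basis.ofVectorSpace k F
    refine Submodule.LinearDisjoint.of_basis_left _ _
      (e.map (LinearEquiv.ofInjective (V.x t).toLinearMap hinj)) ?_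
    rw [LinearMap.ker_eq_bot']
    intro n hn
    ext j
    obtain ⟨Ψ, h1, h2⟩ := exists_coef (k := k) (F := F) (Fin.castSucc ⟨t, ht⟩) (e.coord j)
    have h3 : ∀ u ∈ V.T t, ∀ w, Ψ (w * u) = Ψ w * u := by
      intro u hu
      refine Algebra.adjoin_induction ?_ ?_ ?_ ?_ hu
      · rintro _ ⟨l, hl, f, rfl⟩ w
        rw [hX1 l (hl.trans ht)]
        refine h2 _ ?_ f w
        intro hh
        have := congrArg Fin.val hh
        exact hl.ne this
      · intro f w
        rw [SS.algebraMap_eq]
        refine h2 _ ?_ f w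
        intro hh
        have := congrArg Fin.val hh
        exact ht.ne' this
      · intro a b _ _ ha hb w
        rw [mul_add, map_add, ha, hb, mul_add]
      · intro a b _ _ ha hb w
        rw [← mul_assoc, hb, ha, mul_assoc]
    have h4 : ∀ (f : F) (u : SS k F T), u ∈ V.T t → Ψ (V.x t f * u) = e.coord j f • u := by
      intro f u hu
      rw [h3 u hu, hxt, h1, smul_mul_assoc, one_mul]
    have h5 : Ψ (Submodule.mulLeftMap ((Subalgebra.toSubmodule (V.T t)).restrictScalars k)
        (e.map (LinearEquiv.ofInjective (V.x t).toLinearMap hinj)) n) = (n j : SS k F T) := by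
      rw [Submodule.mulLeftMap_apply, map_finsuppSum]
      have h6 : ∀ i, Ψ (((e.map (LinearEquiv.ofInjective (V.x t).toLinearMap hinj)) i :
          SS k F T) * (n i : SS k F T)) = (if i = j then 1 else 0 : k) • (n i : SS k F T) := by
        intro i
        have h7 : (((e.map (LinearEquiv.ofInjective (V.x t).toLinearMap hinj)) i :
          LinearMap.range (V.x t).toLinearMap) : SS k F T) = V.x t (e i) := rfl
        rw [h7, h4 _ _ (n i).2]
        congr 1
        rw [Module.Basis.coord_apply, Module.Basis.repr_self, Finsupp.single_apply]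
      rw [Finsupp.sum, Finset.sum_eq_single j]
      · rw [h6, if_pos rfl, one_smul]
      · intro i _ hij
        rw [h6, if_neg hij, zero_smul]
      · intro hj
        rw [Finsupp.notMem_support_iff.1 hj]
        simp
    rw [hn, map_zero] at h5
    simpa using h5.symm
  · obtain ⟨σ, hσ⟩ := SS.exists_hom (k := k) (F := F) (T := T) (R := SS k F T)
      fun m => if m = Fin.last T then SS.ι l.castSucc else SS.ι m
    have h1 : ∀ f, σ (SS.ι (Fin.last T) f) = SS.ι l.castSucc f := by
      intro f
      rw [hσ, if_pos rfl]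
    have h2 : ∀ (m : Fin T) (f : F), σ (SS.ι m.castSucc f) = SS.ι m.castSucc f := by
      intro m f
      rw [hσ, if_neg (Fin.castSucc_lt_last m).ne]
    refine ⟨σ, h1, h2, fun u => ?_⟩
    have h3 : σ.comp (R l) = σ := by
      refine SS.hom_ext fun m f => ?_
      rw [AlgHom.comp_apply]
      by_cases h : m.val = l
      · have hm : m = l.castSucc := Fin.ext h
        rw [hRe l m f h, h1, hm, h2]
      · rw [hRs l m f h]
    exact DFunLike.congr_fun h3 u

end

end Pool.Agent.MPd118f9
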