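import Pool.Agent.Lib.MP_d118f9_ag.B.Fb
import Pool.Agent.Lib.MP_d118f9_ag.B.Array
import Pool.Agent.Lib.MP_d118f9_ag.B.Model
import Pool.Agent.Lib.MP_d118f9_ag.K.AS

/-!
# MP_d118f9_ag, block B: exactness of Koszul complexes in large degree (LD)
-/

set_option autoImplicit false

noncomputable section

open Classical

namespace Pool.Agent.MPd118f9

variable {k F : Type} [Field k] [IsAlgClosed k] [CharZero k] [Field F] [Algebra k F]

omit [IsAlgClosed k] [CharZero k] in
private theorem LD_arr_sub {S : Type} [CommRing S] [Algebra k S] [Algebra F S]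
    [IsScalarTower k F S] (V : Vars k F S) {t r : ℕ} (a : Fin r → F)
    (c d : (Fin t → Fin r) → F) : V.arr a (fun I => c I - d I) = V.arr a c - V.arr a d := by
  unfold Vars.arr
  rw [← Finset.sum_sub_distrib]
  refine Finset.sum_congr rfl fun I _ => ?_
  rw [map_sub, mul_sub]

/-- the contraction of the last but not least places -/
private theorem LD_contr {i r : ℕ} {a : Fin r → F} {c' : Fin r → (Fin i → Fin r) → F}
    (h0 : ∀ (p : Fin r) (l : Fin i) (I : Fin i → Fin r),
      ∑ j, a j * c' p (Function.update I l j) = 0)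
    (l : Fin (i + 1)) (hl : l ≠ Fin.last i) (J : Fin i → Fin r) :
    ∑ j, a j • (fun I : Fin (i + 1) → Fin r => c' (I (Fin.last i)) (Fin.init I))
      (Fin.insertNth (α := fun _ => Fin r) l j J) = 0 := by
  obtain ⟨l', rfl⟩ : ∃ l' : Fin i, l = Fin.castSucc l' := ⟨l.castPred hl, by simp⟩
  cases i with
  | zero => exact l'.elim0
  | succ m =>
    have e1 : ∀ j : Fin r, (Fin.insertNth (α := fun _ => Fin r) (Fin.castSucc l') j J :
        Fin (m + 1 + 1) → Fin r) (Fin.last (m + 1)) = J (Fin.last m) := by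
      intro j
      have h1 : Fin.last (m + 1) = (Fin.castSucc l').succAbove (Fin.last m) := by
        rw [Fin.succAbove_of_le_castSucc]
        · rfl
        · exact Fin.castSucc_le_castSucc_iff.2 (Fin.le_last _)
      rw [h1, Fin.insertNth_apply_succAbove]
    have e2 : ∀ j : Fin r, Fin.init (Fin.insertNth (α := fun _ => Fin r) (Fin.castSucc l') j J :
        Fin (m + 1 + 1) → Fin r) = Function.update
          (Fin.insertNth (α := fun _ => Fin r) l' (J (Fin.last m)) (Fin.init J) :
            Fin (m + 1) → Fin r) l' j := by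
      intro j
      funext q
      rw [Fin.init]
      rcases Fin.eq_self_or_eq_succAbove l' q with rfl | ⟨q', rfl⟩
      · rw [Function.update_self, Fin.insertNth_apply_same]
      · rw [Function.update_of_ne (Fin.succAbove_ne l' q'), Fin.insertNth_apply_succAbove,
          ← Fin.castSucc_succAbove_castSucc, Fin.insertNth_apply_succAbove]
        rfl
    have h2 := h0 (J (Fin.last m)) l'
      (Fin.insertNth (α := fun _ => Fin r) l' (J (Fin.last m)) (Fin.init J))
    rw [← h2]
    refine Finset.sum_congr rfl fun j _ => ?_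
    simp only [e1, e2, smul_eq_mul]

/-- **LD.**  Proof.  Let `a₀` be good, `N = (i + 2) a₀`, `S = SS k F i` and `V` the variables of
`SS.exists_vars`.  By `Alt.contr_update` and `arr_mem_Fb` the element `x = V.arr a c` is in
`V.Fb (fun _ => A) i (B + A)`, and this bundle satisfies `isBdl_Fb` with `b = (i + 1) a₀`.  By
`IsBdl.span_mul` `x = ∑ j, a j • u j` with `u j ∈ V.Fb (fun _ => A) i B`; by `exists_arr`
`u j = V.arr a (c' j)`, the contractions of `c' j` vanish and its values are in `L B`.  By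
`smul_arr`, `arr_sum` and `arr_inj` `c I = ∑ j, a j * c' j I`.  Apply `contr_asym` to
`G I = c' (I (Fin.last i)) (Fin.init I)`; `b` is `asym G` divided by `(-1)^i i!`. -/
theorem LD (hF : IsCurve k F) (i : ℕ) : ∃ N : ℤ, ∀ A B : Dv k F, N ≤ deg A → N ≤ deg B →
    ∀ (r : ℕ) (a : Module.Basis (Fin r) k (L A)) (c : (Fin i → Fin r) → F), Alt c →
      (∀ I, c I ∈ L (A + B)) → IsCyc (fun j => (a j : F)) c →
        ∃ b : (Fin (i + 1) → Fin r) → F, Alt b ∧ (∀ I, b I ∈ L B) ∧
          ∀ I, c I = ∑ j, (a j : F) * b (Fin.cons j I) := by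
  obtain ⟨a₀, ha⟩ := IsCurve.exists_isGood hF
  refine ⟨(i + 2) * a₀, ?_⟩
  intro A B hA hB r a c hAlt hcL hcyc
  have hpos := ha.pos
  have hi : (0 : ℤ) ≤ (i : ℤ) * a₀ := mul_nonneg (by positivity) hpos
  have hA1 : a₀ ≤ deg A := by nlinarith
  have hB1 : ((i : ℤ) + 1) * a₀ + a₀ ≤ deg B := by nlinarith
  obtain ⟨V, -, hV, -, -⟩ := SS.exists_vars k F i
  -- the basis
  have hind : LinearIndependent k (fun j => (a j : F)) :=
    a.linearIndependent.map' (L A).subtype (Submodule.ker_subtype _)
  have hmem : ∀ j, (a j : F) ∈ L A := fun j => (a j).2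
  have hsp : L A ≤ Submodule.span k (Set.range fun j => (a j : F)) := by
    have h1 : Set.range (fun j => (a j : F)) = (L A).subtype '' Set.range a := by
      rw [← Set.range_comp]
      rfl
    rw [h1, ← Submodule.map_span, a.span_eq, Submodule.map_top, Submodule.range_subtype]
  -- the element
  have hx : V.arr (fun j => (a j : F)) c ∈ V.Fb (fun _ => A) i (B + A) := by
    rw [add_comm B A]
    exact V.arr_mem_Fb hmem hcL (fun l I => Alt.contr_update hAlt hcyc l I)
  obtain ⟨α, β, hbdl⟩ := V.isBdl_Fb hF ha (fun _ => A) i (fun s hs => hV s hs) (fun _ _ => hA1)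
  obtain ⟨g, hg, hxg⟩ := hbdl.span_mul hF ha hA1 hB1 hx hsp hmem
  -- the arrays
  choose c' hc'L hc'g hc'0 using fun j => V.exists_arr hV hind hsp (hg j)
  have hcc : ∀ I, c I = ∑ j, (a j : F) * c' j I := by
    have h1 : V.arr (fun j => (a j : F)) (fun I => c I - ∑ j, (a j : F) * c' j I) = 0 := by
      rw [LD_arr_sub, ← V.arr_sum (fun j => (a j : F)) (fun j I => (a j : F) * c' j I), hxg,
        sub_eq_zero]
      refine Finset.sum_congr rfl fun j _ => ?_
      rw [← V.smul_arr, hc'g]
    intro I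
    exact sub_eq_zero.1 (V.arr_inj hV hind h1 I)
  -- antisymmetrisation
  let G : (Fin (i + 1) → Fin r) → F := fun I => c' (I (Fin.last i)) (Fin.init I)
  have key := contr_asym (fun j => (a j : F)) G c hAlt
    (fun l hl J => LD_contr hc'0 l hl J)
    (fun J => by
      rw [hcc J]
      refine Finset.sum_congr rfl fun j _ => ?_
      show (a j : F) • c' ((Fin.insertNth (α := fun _ => Fin r) (Fin.last i) j J :
        Fin (i + 1) → Fin r) (Fin.last i)) (Fin.init (Fin.insertNth (α := fun _ => Fin r)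
          (Fin.last i) j J)) = _
      rw [Fin.insertNth_apply_same, Fin.insertNth_last', Fin.init_snoc, smul_eq_mul])
  have hκ : (((-1) ^ i * (i.factorial : ℤ) : ℤ) : k) ≠ 0 := by
    rw [Int.cast_ne_zero]
    exact mul_ne_zero (pow_ne_zero _ (by norm_num)) (by exact_mod_cast i.factorial_ne_zero)
  refine ⟨fun I => ((((-1) ^ i * (i.factorial : ℤ) : ℤ) : k)⁻¹) • asym G I, ?_, ?_, ?_⟩
  · intro σ I
    show _ • asym G (I ∘ σ) = _ • (_ • asym G I)
    rw [alt_asym G σ I, smul_comm]
  · intro I
    refine (L B).smul_mem _ (Submodule.sum_mem _ fun σ _ => ?_)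
    exact zsmul_mem (hc'L _ _) _
  · intro I
    have h1 := key I
    have h2 : ∑ j, (a j : F) * ((((((-1) ^ i * (i.factorial : ℤ) : ℤ) : k)⁻¹)) •
        asym G (Fin.cons j I)) = ((((-1) ^ i * (i.factorial : ℤ) : ℤ) : k)⁻¹) •
          ∑ j, (a j : F) • asym G (Fin.cons j I : Fin (i + 1) → Fin r) := by
      rw [Finset.smul_sum]
      refine Finset.sum_congr rfl fun j _ => ?_
      rw [smul_eq_mul, mul_smul_comm]
    rw [h2, h1, ← Int.cast_smul_eq_zsmul k, smul_smul, inv_mul_cancel₀ hκ, one_smul]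

end Pool.Agent.MPd118f9
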