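import Pool.Agent.Lib.MP_d118f9_ag.B.Mk

/-!
# MP_d118f9_ag, block B: levels (B6, B7)
-/

set_option autoImplicit false

noncomputable section

open Classical

namespace Pool.Agent.MPd118f9

variable {k F S : Type} [Field k] [IsAlgClosed k] [CharZero k] [Field F] [Algebra k F]
  [CommRing S] [Algebra k S] [Algebra F S] [IsScalarTower k F S]

/-- A basis of `L A`. -/
private theorem Lev_basis (hF : IsCurve k F) (A : Dv k F) : ∃ (r : ℕ) (a : Fin r → F),
    LinearIndependent k a ∧ (∀ i, a i ∈ L A) ∧ L A ≤ Submodule.span k (Set.range a) := by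
  have : FiniteDimensional k (L A) := hF.finDim A
  let a := Module.finBasis k (L A)
  refine ⟨Module.finrank k (L A), fun j => (a j : F),
    a.linearIndependent.map' (L A).subtype (Submodule.ker_subtype _), fun j => (a j).2, ?_⟩
  have h1 : Set.range (fun j => (a j : F)) = (L A).subtype '' Set.range a := by
    rw [← Set.range_comp]
    rfl
  rw [h1, ← Submodule.map_span, a.span_eq, Submodule.map_top, Submodule.range_subtype]

/-- A basis of a finite dimensional subspace. -/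
private theorem Lev_basis' (N : Submodule k S) [FiniteDimensional k N] :
    ∃ (r : ℕ) (a : Fin r → S),
    LinearIndependent k a ∧ (∀ i, a i ∈ N) ∧ N ≤ Submodule.span k (Set.range a) := by
  let a := Module.finBasis k N
  refine ⟨Module.finrank k N, fun j => (a j : S),
    a.linearIndependent.map' N.subtype (Submodule.ker_subtype _), fun j => (a j).2, ?_⟩
  have h1 : Set.range (fun j => (a j : S)) = N.subtype '' Set.range a := by
    rw [← Set.range_comp]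
    rfl
  rw [h1, ← Submodule.map_span, a.span_eq, Submodule.map_top, Submodule.range_subtype]

private theorem Lev_rho (V : Vars k F S) {t r : ℕ} {a : Fin r → F} {u : Fin r → S}
    (hu : ∀ i, u i ∈ V.T t) :
    V.ρ t (∑ i, V.x t (a i) * u i) = ∑ i, a i • u i := by
  rw [map_sum]
  refine Finset.sum_congr rfl fun i _ => ?_
  rw [map_mul, V.ρ_x, V.ρ_fix t _ (hu i), Algebra.smul_def]

private theorem Lev_sum (V : Vars k F S) {t r : ℕ} (a : Fin r → F) (u v : Fin r → S) (ζ : S) :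
    ∑ i, V.x t (a i) * (u i + ζ * v i) =
      ∑ i, V.x t (a i) * u i + ζ * ∑ i, V.x t (a i) * v i := by
  rw [Finset.mul_sum, ← Finset.sum_add_distrib]
  refine Finset.sum_congr rfl fun i _ => ?_
  ring

private theorem Lev_sum' (V : Vars k F S) {t r : ℕ} (f g : Fin r → F) (b : Fin r → S) (z : F) :
    ∑ i, V.x t (f i + z * g i) * b i =
      ∑ i, V.x t (f i) * b i + V.x t z * ∑ i, V.x t (g i) * b i := by
  rw [Finset.mul_sum, ← Finset.sum_add_distrib]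
  refine Finset.sum_congr rfl fun i _ => ?_
  rw [map_add, map_mul]
  ring

private theorem Lev_Lx_mono (V : Vars k F S) {t : ℕ} {A A' : Dv k F} (h : A ≤ A') :
    V.Lx t A ≤ V.Lx t A' := by
  rintro _ ⟨f, hf, rfl⟩
  exact ⟨f, L_mono h hf, rfl⟩

private theorem Lev_x_mul (V : Vars k F S) {t : ℕ} {A E : Dv k F} {N : Submodule k S} {z : F}
    (hz : z ∈ L E) {x : S} (hx : x ∈ V.Lx t A * N) : V.x t z * x ∈ V.Lx t (A + E) * N := by
  refine Submodule.mul_induction_on (C := fun x => V.x t z * x ∈ V.Lx t (A + E) * N) hx ?_ ?_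
  · rintro m ⟨f, hf, rfl⟩ n hn
    show V.x t z * (V.x t f * n) ∈ _
    rw [← mul_assoc, ← map_mul, mul_comm z f]
    exact Submodule.mul_mem_mul ⟨f * z, mul_mem_L hf hz, rfl⟩ hn
  · intro x y hx hy
    rw [mul_add]
    exact add_mem hx hy

/-- **B7 (levels, old variable).**  `le_m`, `le_p`, `mul_m`, `mul_p`: clear (`ρ t ζ = ζ`).
`gen`: let `x ∈ Mk t A Gp B`.  Write `x = ∑ x_t(a i) u i`, `a` a basis of `L(A)`, `u i ∈ Gp B`,
`u i = u₀ i + ζ u₁ i` with `u₀ i, u₁ i ∈ G B`, so `x = X₀ + ζ X₁`.  Then `ρ X₀ + ζ ρ X₁ = 0` with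
`ρ X₀ = ∑ a i • u₀ i` and `ρ X₁` in `G(B + A)`; by `ker` the element `v = -ρ X₁` is in `Gm(B + A)`.
By `IsBdl.span_mul` for `Gm` there is `Y ∈ L(A)(x t) · Gm(B)` with `ρ Y = v`.  Then
`x = (X₀ - ζ Y) + ζ (X₁ + Y)` and both brackets are in the kernel of `ρ`.
`ker`: `X₀ + ζ X₁ = 0` with coordinates `u₀ i, u₁ i ∈ G B`; by `Disj.left` `u₀ i + ζ u₁ i = 0`, so
`u₁ i ∈ Gm B`. -/
theorem Vars.isLev_Mk (hF : IsCurve k F) {a₀ : ℤ} (ha : IsGood k F a₀) (V : Vars k F S)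
    [Nontrivial S] {t : ℕ} (hV : V.Disj t) {ζ : S} (hζ : ζ ∈ V.T t)
    {Gm G Gp : Dv k F → Submodule k S} {α β b b' : ℤ} (hlev : IsLev ζ Gm G Gp b')
    (hGm : IsBdl Gm α β b) (hG : ∀ (f : F) (u : S) (B : Dv k F), f ≠ 0 → u ∈ G B →
      f • u ∈ G (B - dv k f)) (hGmono : ∀ B B' : Dv k F, B ≤ B' → G B ≤ G B')
    (hGT : ∀ B, ∀ u ∈ G B, u ∈ V.T t) {A : Dv k F}
    (hA : a₀ ≤ deg A) (hb' : b' ≤ b + a₀) :
    IsLev ζ (V.Mk t A Gm) (V.Mk t A G) (V.Mk t A Gp) (b + a₀) := by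
  obtain ⟨r, a, hind, hmem, hsp⟩ := Lev_basis hF A
  have hpos := ha.pos
  have hρζ : V.ρ t ζ = ζ := V.ρ_fix t ζ hζ
  have hGmT : ∀ B, ∀ u ∈ Gm B, u ∈ V.T t := fun B u hu => hGT B u (hlev.le_m hu)
  have hsm : ∀ {f : F} {u : S} {B : Dv k F}, f ∈ L A → u ∈ G B → f • u ∈ G (B + A) := by
    intro f u B hf hu
    by_cases h0 : f = 0
    · rw [h0, zero_smul]
      exact zero_mem _
    refine hGmono _ _ ?_ (hG f u B h0 hu)
    intro P
    have h1 := (mem_L_of_ne h0).1 hf P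
    rw [Finsupp.sub_apply, Finsupp.add_apply, hF.dv_apply h0]
    linarith
  refine ⟨?_, ?_, ?_, ?_, ?_, ?_⟩
  · intro B u hu
    have h1 : Gm B ≤ G B := fun _ h => hlev.le_m h
    exact ⟨mul_le_mul_right h1 _ hu.1, hu.2⟩
  · intro B u hu
    have h1 : G B ≤ Gp B := fun _ h => hlev.le_p h
    exact ⟨mul_le_mul_right h1 _ hu.1, hu.2⟩
  · intro B u hu
    obtain ⟨v, hv, hvu⟩ := V.exists_coord hsp hu.1
    refine ⟨?_, ?_⟩
    · have h1 : ζ * u = ∑ i, V.x t (a i) * (ζ * v i) := by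
        rw [hvu, Finset.mul_sum]
        exact Finset.sum_congr rfl fun i _ => by ring
      rw [h1]
      exact V.mem_Lx_mul hmem fun i => hlev.mul_m (hv i)
    · show V.ρ t (ζ * u) = 0
      have h2 : V.ρ t u = 0 := hu.2
      rw [map_mul, h2, mul_zero]
  · intro B u hu
    obtain ⟨v, hv, hvu⟩ := V.exists_coord hsp hu.1
    refine ⟨?_, ?_⟩
    · have h1 : ζ * u = ∑ i, V.x t (a i) * (ζ * v i) := by
        rw [hvu, Finset.mul_sum]
        exact Finset.sum_congr rfl fun i _ => by ring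
      rw [h1]
      exact V.mem_Lx_mul hmem fun i => hlev.mul_p (hv i)
    · show V.ρ t (ζ * u) = 0
      have h2 : V.ρ t u = 0 := hu.2
      rw [map_mul, h2, mul_zero]
  · intro B x hB hx
    obtain ⟨u, hu, hux⟩ := V.exists_coord hsp hx.1
    choose u₀ hu₀ u₁ hu₁ huu using fun i => hlev.gen (hb'.trans hB) (hu i)
    have hX : x = ∑ i, V.x t (a i) * u₀ i + ζ * ∑ i, V.x t (a i) * u₁ i := by
      rw [← Lev_sum, hux]
      exact Finset.sum_congr rfl fun i _ => by rw [huu i]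
    have hρx : V.ρ t x = 0 := hx.2
    rw [hX, map_add, map_mul, hρζ, Lev_rho V (fun i => hGT B _ (hu₀ i)),
      Lev_rho V (fun i => hGT B _ (hu₁ i))] at hρx
    have hm : ∑ i, a i • u₁ i ∈ Gm (B + A) :=
      hlev.ker (Submodule.sum_mem _ fun i _ => hsm (hmem i) (hu₀ i))
        (Submodule.sum_mem _ fun i _ => hsm (hmem i) (hu₁ i)) hρx
    obtain ⟨g, hg, hgm⟩ := hGm.span_mul hF ha hA hB hm hsp hmem
    have hρY : V.ρ t (∑ i, V.x t (a i) * g i) = ∑ i, a i • u₁ i := by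
      rw [Lev_rho V (fun i => hGmT B _ (hg i)), hgm]
    refine ⟨∑ i, V.x t (a i) * (u₀ i + ζ * g i), ⟨?_, ?_⟩,
      ∑ i, V.x t (a i) * (u₁ i + (-1) * g i), ⟨?_, ?_⟩, ?_⟩
    · exact V.mem_Lx_mul hmem fun i => add_mem (hu₀ i) (hlev.mul_m (hg i))
    · show V.ρ t _ = 0
      rw [Lev_sum, map_add, map_mul, hρζ, hρY, Lev_rho V (fun i => hGT B _ (hu₀ i))]
      exact hρx
    · refine V.mem_Lx_mul hmem fun i => add_mem (hu₁ i) ?_
      rw [neg_one_mul]
      exact neg_mem (hlev.le_m (hg i))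
    · show V.ρ t _ = 0
      rw [Lev_sum, map_add, map_mul, hρY, Lev_rho V (fun i => hGT B _ (hu₁ i)), map_neg,
        map_one]
      ring
    · rw [hX, Lev_sum, Lev_sum]
      ring
  · intro B x y hx hy hxy
    obtain ⟨u, hu, hux⟩ := V.exists_coord hsp hx.1
    obtain ⟨v, hv, hvy⟩ := V.exists_coord hsp hy.1
    refine ⟨?_, hy.2⟩
    have h1 := hV.left hind (u := fun i => u i + ζ * v i)
      (fun i => add_mem (hGT B _ (hu i)) (mul_mem hζ (hGT B _ (hv i)))) (by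
        rw [Lev_sum, ← hux, ← hvy, hxy])
    rw [hvy]
    exact V.mem_Lx_mul hmem fun i => hlev.ker (hu i) (hv i) (h1 i)

/-- **B6 (levels, new variable).**  `E = poles k z`.  `L(A + E) = L(A) + z L(A)`
(`IsBdl.pencil_surj` for `isBdl_L` with the pencil `1, z`, `pencil_one`).  `gen`: write
`x ∈ Mk t (A + E) G B` as `∑ x_t(f i) b i`, `b` a basis of `G(B)`, `f i = f₀ i + z f₁ i`,
`f₀ i, f₁ i ∈ L(A)`, so `x = X₀ + x_t(z) X₁`, `X₀, X₁ ∈ L(A)(x t) · G(B)`.  Then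
`ρ X₀ + z • ρ X₁ = 0` in `G(B + A)`, so by `pencil_ker` `ρ X₀ = z • v`, `ρ X₁ = -v` with
`v ∈ G(B + A - E)`; by `span_mul` `v = ρ Y`, `Y ∈ L(A - E)(x t) · G(B)`.  Then
`x = (X₀ - x_t(z) Y) + x_t(z) (X₁ + Y)`.
`ker`: coordinates with respect to a basis `b` of `G(B)` (`exists_coord'`, `Disj.right`): `f₀ i +
z f₁ i = 0`, hence `f₁ i ∈ L(A - E)` (`pencil_ker` for `isBdl_L`). -/
theorem Vars.isLev_new (hF : IsCurve k F) {a₀ : ℤ} (ha : IsGood k F a₀) (V : Vars k F S)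
    [Nontrivial S] {t : ℕ} (hV : V.Disj t) {z : F} (hz : ∀ c : k, z ≠ algebraMap k F c)
    {G : Dv k F → Submodule k S} {α β b : ℤ}
    (hG : IsBdl G α β b) (hGT : ∀ B, ∀ u ∈ G B, u ∈ V.T t) {A : Dv k F}
    (hA : a₀ + deg (poles k z) ≤ deg A) :
    IsLev (V.x t z) (V.Mk t (A - poles k z) G) (V.Mk t A G) (V.Mk t (A + poles k z) G)
      (b + a₀) := by
  set E := poles k z with hE
  have hz0 : z ≠ 0 := fun h => hz 0 (by rw [h, map_zero])
  have hpos := ha.pos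
  have hE0 : 0 ≤ E := le_sup_right
  have hEd : 0 < deg E := hF.deg_poles_pos hz
  have hzE : z ∈ L E := by
    rw [mem_L_of_ne hz0]
    intro P
    have h1 : -dv k z ≤ E := le_sup_left
    have h2 := h1 P
    rw [Finsupp.neg_apply, hF.dv_apply hz0] at h2
    linarith
  have h1E : (1 : F) ∈ L E := one_mem_L hE0
  have hpen := IsCurve.pencil_one hF hz0
  have hL := hF.isBdl_L ha
  have hAE : A - E ≤ A := sub_le_self A hE0
  have hAE' : A ≤ A + E := le_add_of_nonneg_right hE0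
  have hρxz : ∀ u, V.ρ t u = 0 → V.ρ t (V.x t z * u) = 0 := by
    intro u hu
    rw [map_mul, hu, mul_zero]
  refine ⟨?_, ?_, ?_, ?_, ?_, ?_⟩
  · intro B u hu
    exact ⟨mul_le_mul_left (Lev_Lx_mono V hAE) _ hu.1, hu.2⟩
  · intro B u hu
    exact ⟨mul_le_mul_left (Lev_Lx_mono V hAE') _ hu.1, hu.2⟩
  · intro B u hu
    refine ⟨?_, hρxz u hu.2⟩
    have h1 := Lev_x_mul V hzE hu.1
    rwa [sub_add_cancel] at h1
  · intro B u hu
    exact ⟨Lev_x_mul V hzE hu.1, hρxz u hu.2⟩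
  · intro B x hB hx
    have := hG.fin B
    obtain ⟨r, b', hb', hbm, hbs⟩ := Lev_basis' (G B)
    obtain ⟨f, hf, hfx⟩ := V.exists_coord' hbs hx.1
    have hf2 : ∀ i, ∃ g₁ ∈ L A, ∃ g₂ ∈ L A, f i = (1 : F) • g₁ + z • g₂ := fun i =>
      hL.pencil_surj hF hEd.le hA h1E hzE one_ne_zero hz0 hpen (hf i)
    choose f₀ hf₀ f₁ hf₁ hff using hf2
    have hX : x = ∑ i, V.x t (f₀ i) * b' i + V.x t z * ∑ i, V.x t (f₁ i) * b' i := by
      rw [← Lev_sum', hfx]
      refine Finset.sum_congr rfl fun i _ => ?_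
      rw [hff i, one_smul, smul_eq_mul]
    have hρx : V.ρ t x = 0 := hx.2
    have hbT : ∀ i, b' i ∈ V.T t := fun i => hGT B _ (hbm i)
    rw [hX, map_add, map_mul, V.ρ_x, Lev_rho V hbT, Lev_rho V hbT, ← Algebra.smul_def] at hρx
    have hm₀ : ∑ i, f₀ i • b' i ∈ G (B + A) :=
      Submodule.sum_mem _ fun i _ => hG.smul_mem hF (hf₀ i) (hbm i)
    have hm₁ : ∑ i, f₁ i • b' i ∈ G (B + A) :=
      Submodule.sum_mem _ fun i _ => hG.smul_mem hF (hf₁ i) (hbm i)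
    obtain ⟨v, hv, hv₀, hv₁⟩ := hG.pencil_ker hF one_ne_zero hz0 hpen hm₀ hm₁
      (by rw [one_smul]; exact hρx)
    rw [one_smul] at hv₁
    rw [add_sub_assoc] at hv
    obtain ⟨s, a, hind, hmem, hsp⟩ := Lev_basis hF (A - E)
    obtain ⟨g, hg, hgv⟩ := hG.span_mul hF ha (A := A - E)
      (by rw [deg_sub]; linarith) hB hv hsp hmem
    have hρY : V.ρ t (∑ i, V.x t (a i) * g i) = v := by
      rw [Lev_rho V (fun i => hGT B _ (hg i)), hgv]
    have hY := V.mem_Lx_mul (t := t) hmem hg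
    refine ⟨∑ i, V.x t (f₀ i) * b' i - V.x t z * ∑ i, V.x t (a i) * g i, ⟨?_, ?_⟩,
      ∑ i, V.x t (f₁ i) * b' i + ∑ i, V.x t (a i) * g i, ⟨?_, ?_⟩, ?_⟩
    · refine sub_mem (V.mem_Lx_mul hf₀ hbm) ?_
      have h1 := Lev_x_mul V hzE hY
      rwa [sub_add_cancel] at h1
    · show V.ρ t _ = 0
      rw [map_sub, map_mul, V.ρ_x, hρY, Lev_rho V hbT, hv₀, Algebra.smul_def, sub_self]
    · exact add_mem (V.mem_Lx_mul hf₁ hbm) (mul_le_mul_left (Lev_Lx_mono V hAE) _ hY)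
    · show V.ρ t _ = 0
      rw [map_add, hρY, Lev_rho V hbT, hv₁, neg_add_cancel]
    · rw [hX]
      ring
  · intro B x y hx hy hxy
    have := hG.fin B
    obtain ⟨r, b', hb', hbm, hbs⟩ := Lev_basis' (G B)
    obtain ⟨f₀, hf₀, hfx⟩ := V.exists_coord' hbs hx.1
    obtain ⟨f₁, hf₁, hfy⟩ := V.exists_coord' hbs hy.1
    refine ⟨?_, hy.2⟩
    have h1 := hV.right hb' (fun i => hGT B _ (hbm i)) (f := fun i => f₀ i + z * f₁ i) (by
      rw [Lev_sum', ← hfx, ← hfy, hxy])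
    rw [hfy]
    refine V.mem_Lx_mul (fun i => ?_) hbm
    obtain ⟨w, hw, -, hw₁⟩ := hL.pencil_ker hF one_ne_zero hz0 hpen (hf₀ i) (hf₁ i) (by
      rw [one_smul, smul_eq_mul]
      exact h1 i)
    rw [hw₁, one_smul]
    exact neg_mem hw

end Pool.Agent.MPd118f9
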