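import Pool.Agent.Lib.MP_d118f9_ag.B.Defs

/-!
# MP_d118f9_ag, block B: pencils (B1, B2)
-/

set_option autoImplicit false

noncomputable section

open Classical

namespace Pool.Agent.MPd118f9

variable {k F U : Type} [Field k] [IsAlgClosed k] [CharZero k] [Field F] [Algebra k F]
  [AddCommGroup U] [Module k U] [Module F U] [IsScalarTower k F U]

/-- **B1 (kernel of a pencil).**  Proof: `x = u₂⁻¹ g₁ ∈ G(B + dv u₂)` and `x = -u₁⁻¹ g₂ ∈
G(B + dv u₁)`; the infimum of the two divisors is `B - A`. -/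
theorem IsBdl.pencil_ker (hF : IsCurve k F) {G : Dv k F → Submodule k U} {α β b : ℤ}
    (hG : IsBdl G α β b) {A B : Dv k F} {u₁ u₂ : F} (h₁ : u₁ ≠ 0) (h₂ : u₂ ≠ 0)
    (h : dv k u₁ ⊓ dv k u₂ = -A) {g₁ g₂ : U} (hg₁ : g₁ ∈ G B) (hg₂ : g₂ ∈ G B)
    (h0 : u₁ • g₁ + u₂ • g₂ = 0) :
    ∃ x ∈ G (B - A), g₁ = u₂ • x ∧ g₂ = -(u₁ • x) := by
  have e1 : u₁ • g₁ = -(u₂ • g₂) := eq_neg_of_add_eq_zero_left h0
  have hx1 : u₂⁻¹ • g₁ = u₁⁻¹ • (-g₂) := by
    rw [inv_smul_eq_iff₀ h₂, smul_comm, eq_inv_smul_iff₀ h₁, e1, smul_neg]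
  have m1 : u₂⁻¹ • g₁ ∈ G (B + dv k u₂) := by
    have := hG.smul (inv_ne_zero h₂) hg₁
    rwa [hF.dv_inv h₂, sub_neg_eq_add] at this
  have m2 : u₂⁻¹ • g₁ ∈ G (B + dv k u₁) := by
    rw [hx1]
    have := hG.smul (inv_ne_zero h₁) ((G B).neg_mem hg₂)
    rwa [hF.dv_inv h₁, sub_neg_eq_add] at this
  have m3 := hG.inf m2 m1
  rw [← add_inf, h, ← sub_eq_add_neg] at m3
  refine ⟨_, m3, ?_, ?_⟩
  · rw [smul_inv_smul₀ h₂]
  · rw [hx1, smul_inv_smul₀ h₁, neg_neg]

private theorem neg_le_dv (hF : IsCurve k F) {A : Dv k F} {f : F} (hf0 : f ≠ 0) (hf : f ∈ L A) :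
    -A ≤ dv k f := by
  intro P
  rw [hF.dv_apply hf0, Finsupp.neg_apply]
  exact (mem_L_of_ne hf0).1 hf P

/-- Multiplication by elements of `L(A)`. -/
theorem IsBdl.smul_mem (hF : IsCurve k F) {G : Dv k F → Submodule k U} {α β b : ℤ}
    (hG : IsBdl G α β b) {A B : Dv k F} {f : F} {u : U} (hf : f ∈ L A) (hu : u ∈ G B) :
    f • u ∈ G (B + A) := by
  by_cases hf0 : f = 0
  · rw [hf0, zero_smul]
    exact (G (B + A)).zero_mem
  · refine hG.mono ?_ (hG.smul hf0 hu)
    have := neg_le_dv hF hf0 hf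
    rw [sub_eq_add_neg]
    have h2 : -dv k f ≤ A := neg_le.1 this
    exact add_le_add le_rfl h2

/-- Multiplication by an element of `F` as a `k`-linear map. -/
private def mulF (f : F) : U →ₗ[k] U where
  toFun u := f • u
  map_add' := smul_add f
  map_smul' c u := by
    simp only [RingHom.id_apply]
    rw [← algebraMap_smul F c u, ← algebraMap_smul F c (f • u), smul_smul, smul_smul, mul_comm]

omit [IsAlgClosed k] [CharZero k] in
@[simp] private theorem mulF_apply (f : F) (u : U) : mulF (k := k) f u = f • u := rfl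

/-- **B2 (a pencil generates).**  Dimension count: the map `(g₁, g₂) ↦ u₁ g₁ + u₂ g₂` from
`G(B) × G(B)` to `G(B + A)` has the kernel `{(u₂ x, -u₁ x)}`, `x ∈ G(B - A)`, by B1. -/
theorem IsBdl.pencil_surj (hF : IsCurve k F) {G : Dv k F → Submodule k U} {α β b : ℤ}
    (hG : IsBdl G α β b) {A B : Dv k F} (hA : 0 ≤ deg A) (hB : b + deg A ≤ deg B) {u₁ u₂ : F}
    (hu₁ : u₁ ∈ L A) (hu₂ : u₂ ∈ L A) (h₁ : u₁ ≠ 0) (h₂ : u₂ ≠ 0)
    (h : dv k u₁ ⊓ dv k u₂ = -A) {v : U} (hv : v ∈ G (B + A)) :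
    ∃ g₁ ∈ G B, ∃ g₂ ∈ G B, v = u₁ • g₁ + u₂ • g₂ := by
  haveI := hG.fin B
  haveI := hG.fin (B - A)
  haveI := hG.fin (B + A)
  let φ : (G B × G B) →ₗ[k] U :=
    (mulF u₁ ∘ₗ (G B).subtype).coprod (mulF u₂ ∘ₗ (G B).subtype)
  let ψ : G (B - A) →ₗ[k] U × U :=
    (mulF u₂ ∘ₗ (G (B - A)).subtype).prod (-(mulF u₁ ∘ₗ (G (B - A)).subtype))
  have hφ : ∀ g₁ g₂ : G B, φ (g₁, g₂) = u₁ • (g₁ : U) + u₂ • (g₂ : U) := fun g₁ g₂ => by
    simp [φ]
  have hψ : ∀ x : G (B - A), ψ x = (u₂ • (x : U), -(u₁ • (x : U))) := fun x => by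
    simp [ψ]
  have hrange : LinearMap.range φ ≤ G (B + A) := by
    rintro _ ⟨⟨g₁, g₂⟩, rfl⟩
    rw [hφ]
    exact (G (B + A)).add_mem (hG.smul_mem hF hu₁ g₁.2) (hG.smul_mem hF hu₂ g₂.2)
  -- the kernel
  have hker : Module.finrank k (LinearMap.ker φ) ≤ Module.finrank k (G (B - A)) := by
    let ι : LinearMap.ker φ →ₗ[k] U × U :=
      ((G B).subtype.prodMap (G B).subtype) ∘ₗ (LinearMap.ker φ).subtype
    have hι : Function.Injective ι := by
      intro x y hxy
      apply Subtype.ext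
      have h1 : ((x : G B × G B).1 : U) = ((y : G B × G B).1 : U) := congrArg Prod.fst hxy
      have h2 : ((x : G B × G B).2 : U) = ((y : G B × G B).2 : U) := congrArg Prod.snd hxy
      exact Prod.ext (Subtype.ext h1) (Subtype.ext h2)
    have hle : LinearMap.range ι ≤ LinearMap.range ψ := by
      rintro _ ⟨⟨⟨g₁, g₂⟩, hg⟩, rfl⟩
      rw [LinearMap.mem_ker, hφ] at hg
      obtain ⟨x, hx, e1, e2⟩ := hG.pencil_ker hF h₁ h₂ h g₁.2 g₂.2 hg
      refine ⟨⟨x, hx⟩, ?_⟩
      rw [hψ]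
      show (u₂ • x, -(u₁ • x)) = ((g₁ : U), (g₂ : U))
      rw [← e1, ← e2]
    calc Module.finrank k (LinearMap.ker φ) = Module.finrank k (LinearMap.range ι) :=
          (LinearMap.finrank_range_of_inj hι).symm
      _ ≤ Module.finrank k (LinearMap.range ψ) := Submodule.finrank_mono hle
      _ ≤ Module.finrank k (G (B - A)) := LinearMap.finrank_range_le ψ
  have hdim := LinearMap.finrank_range_add_finrank_ker φ
  rw [Module.finrank_prod] at hdim
  have r1 := hG.rr (B := B) (by linarith)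
  have r2 := hG.rr (B := B - A) (by rw [deg_sub]; linarith)
  have r3 := hG.rr (B := B + A) (by rw [deg_add]; linarith)
  rw [deg_sub] at r2
  rw [deg_add] at r3
  have heq : LinearMap.range φ = G (B + A) := by
    apply Submodule.eq_of_le_of_finrank_le hrange
    zify at hdim hker ⊢
    rw [r3]
    rw [r2] at hker
    rw [r1] at hdim
    linarith
  rw [← heq] at hv
  obtain ⟨⟨g₁, g₂⟩, hg⟩ := hv
  rw [hφ] at hg
  exact ⟨g₁, g₁.2, g₂, g₂.2, hg.symm⟩

/-- The span of the products. -/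
private def Spn (G : Dv k F → Submodule k U) (A B : Dv k F) : Submodule k U :=
  Submodule.span k {w | ∃ f ∈ L A, ∃ g ∈ G B, w = f • g}

private theorem dv_eq_of_sep (hF : IsCurve k F) {A : Dv k F} {P : Pt k F} {a : F} (ha : a ∈ L A)
    (ha' : a ∉ L (A - Finsupp.single P 1)) : a ≠ 0 ∧ dv k a P = -A P := by
  have h0 : a ≠ 0 := by
    rintro rfl
    exact ha' (L _).zero_mem
  refine ⟨h0, ?_⟩
  rw [mem_L_of_ne h0] at ha ha'
  push Not at ha'
  obtain ⟨Q, hQ⟩ := ha'
  have hQ2 := ha Q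
  rw [Finsupp.sub_apply] at hQ
  by_cases hPQ : Q = P
  · subst hPQ
    rw [Finsupp.single_eq_same] at hQ
    rw [hF.dv_apply h0]
    omega
  · rw [Finsupp.single_apply, if_neg (fun e => hPQ e.symm)] at hQ
    omega

private theorem span_step (hF : IsCurve k F) {a₀ : ℤ} (ha : IsGood k F a₀)
    {G : Dv k F → Submodule k U} {α β b : ℤ}
    (hG : IsBdl G α β b) {B : Dv k F} (hB : b + a₀ ≤ deg B) :
    ∀ (n : ℕ) (A : Dv k F), deg A = a₀ + n → G (B + A) ≤ Spn G A B := by
  have h1 := ha.one_le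
  intro n
  induction n with
  | zero =>
    intro A hA v hv
    rw [Nat.cast_zero, add_zero] at hA
    obtain ⟨u₁, hu₁, u₂, hu₂, n1, n2, h⟩ := ha.pencil hA.ge
    obtain ⟨g₁, hg₁, g₂, hg₂, rfl⟩ := hG.pencil_surj hF (by linarith) (by linarith) hu₁ hu₂ n1 n2
      h hv
    exact (Spn G A B).add_mem (Submodule.subset_span ⟨u₁, hu₁, g₁, hg₁, rfl⟩)
      (Submodule.subset_span ⟨u₂, hu₂, g₂, hg₂, rfl⟩)
  | succ n ih =>
    intro A hA
    haveI := hF.infinite_pt
    obtain ⟨P⟩ : Nonempty (Pt k F) := inferInstance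
    push_cast at hA
    obtain ⟨a, haA, haP⟩ := ha.sep P (D := A) (by linarith)
    obtain ⟨a0, haord⟩ := dv_eq_of_sep hF haA haP
    set A' : Dv k F := A - Finsupp.single P 1 with hA'
    have dA' : deg A' = deg A - 1 := by rw [hA', deg_sub, deg_single]
    have hIH := ih A' (by rw [dA', hA]; ring)
    haveI := hG.fin B
    haveI := hG.fin (B + A')
    haveI := hG.fin (B + A)
    haveI := hG.fin (B - Finsupp.single P 1)
    -- the image of `G B` under multiplication with `a`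
    let N₁ : Submodule k U := (G B).map (mulF a)
    have hN₁ : N₁ ≤ G (B + A) := by
      rintro _ ⟨g, hg, rfl⟩
      exact hG.smul_mem hF haA hg
    have hA'A : A' ≤ A := by
      rw [hA']
      apply sub_le_self
      rw [Finsupp.single_nonneg]
      norm_num
    have hN₂ : G (B + A') ≤ G (B + A) := hG.mono (add_le_add le_rfl hA'A)
    have hinj : Function.Injective (mulF (k := k) (U := U) a) := by
      intro x y hxy
      exact smul_right_injective U a0 hxy
    have f1 : Module.finrank k N₁ = Module.finrank k (G B) :=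
      (Submodule.equivMapOfInjective _ hinj (G B)).finrank_eq.symm
    have hinter : N₁ ⊓ G (B + A') ≤ (G (B - Finsupp.single P 1)).map (mulF a) := by
      rintro _ ⟨⟨g, hg, rfl⟩, h2⟩
      refine ⟨g, ?_, rfl⟩
      have h3 := hG.smul (inv_ne_zero a0) h2
      rw [mulF_apply, inv_smul_smul₀ a0, hF.dv_inv a0, sub_neg_eq_add] at h3
      refine hG.mono ?_ (hG.inf hg h3)
      intro Q
      rw [Finsupp.inf_apply, Finsupp.add_apply, Finsupp.add_apply, hA', Finsupp.sub_apply,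
        Finsupp.sub_apply]
      by_cases hPQ : Q = P
      · subst hPQ
        rw [haord, Finsupp.single_eq_same]
        exact inf_le_right.trans (by linarith)
      · rw [Finsupp.single_apply, if_neg (fun e => hPQ e.symm)]
        exact inf_le_left.trans (by linarith)
    have f2 : Module.finrank k ↥(N₁ ⊓ G (B + A')) ≤
        Module.finrank k (G (B - Finsupp.single P 1)) := by
      refine (Submodule.finrank_mono hinter).trans ?_
      exact (Submodule.equivMapOfInjective _ hinj _).finrank_eq.symm.le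
    have f3 := Submodule.finrank_sup_add_finrank_inf_eq N₁ (G (B + A'))
    have r1 := hG.rr (B := B) (by linarith)
    have r2 := hG.rr (B := B - Finsupp.single P 1) (by rw [deg_sub, deg_single]; linarith)
    have r3 := hG.rr (B := B + A) (by rw [deg_add]; linarith)
    have r4 := hG.rr (B := B + A') (by rw [deg_add, dA']; linarith)
    rw [deg_sub, deg_single] at r2
    rw [deg_add] at r3 r4
    rw [dA'] at r4
    have heq : N₁ ⊔ G (B + A') = G (B + A) := by
      apply Submodule.eq_of_le_of_finrank_le (sup_le hN₁ hN₂)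
      zify at f1 f2 f3 ⊢
      rw [f1, r1, r4] at f3
      rw [r2] at f2
      rw [r3]
      linarith
    rw [← heq]
    apply sup_le
    · rintro _ ⟨g, hg, rfl⟩
      exact Submodule.subset_span ⟨a, haA, g, hg, rfl⟩
    · refine hIH.trans (Submodule.span_mono ?_)
      rintro w ⟨f, hf, g, hg, rfl⟩
      exact ⟨f, L_mono hA'A hf, g, hg, rfl⟩

/-- **B3 (large degree generates).**  Induction on `deg A`.  If `deg A = a₀` use a base point free
pencil of `L(A)` and B2.  Step: let `P` be a point, `a ∈ L(A)`, `a ∉ L(A - P)`.  By induction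
`G(B + A - P) ≤ span L(A - P) G(B)`.  The map `u ↦ a u` from `G(B)` to `G(B + A)/G(B + A - P)` has
its kernel in `G(B - P)`, so its image has dimension at least `α = dim G(B + A)/G(B + A - P)`. -/
theorem IsBdl.span_mul (hF : IsCurve k F) {a₀ : ℤ} (ha : IsGood k F a₀)
    {G : Dv k F → Submodule k U} {α β b : ℤ}
    (hG : IsBdl G α β b) {A B : Dv k F} (hA : a₀ ≤ deg A) (hB : b + a₀ ≤ deg B) {v : U}
    (hv : v ∈ G (B + A)) {r : ℕ} {a : Fin r → F}
    (hsp : L A ≤ Submodule.span k (Set.range a)) (haA : ∀ i, a i ∈ L A) :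
    ∃ g : Fin r → U, (∀ i, g i ∈ G B) ∧ v = ∑ i, a i • g i := by
  have hv2 : v ∈ Spn G A B := by
    refine span_step hF ha hG hB (deg A - a₀).toNat A ?_ hv
    rw [Int.toNat_of_nonneg (by linarith)]
    ring
  clear hv
  induction hv2 using Submodule.span_induction with
  | mem w hw =>
    obtain ⟨f, hf, g, hg, rfl⟩ := hw
    obtain ⟨c, hc⟩ := (Submodule.mem_span_range_iff_exists_fun k).1 (hsp hf)
    refine ⟨fun i => c i • g, fun i => (G B).smul_mem _ hg, ?_⟩
    rw [← hc, Finset.sum_smul]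
    refine Finset.sum_congr rfl fun i _ => ?_
    rw [smul_assoc]
    exact ((mulF (k := k) (a i)).map_smul (c i) g).symm
  | zero => exact ⟨fun _ => 0, fun _ => (G B).zero_mem, by simp⟩
  | add x y _ _ hx hy =>
    obtain ⟨g, hg, rfl⟩ := hx
    obtain ⟨g', hg', rfl⟩ := hy
    refine ⟨fun i => g i + g' i, fun i => (G B).add_mem (hg i) (hg' i), ?_⟩
    rw [← Finset.sum_add_distrib]
    exact Finset.sum_congr rfl fun i _ => (smul_add _ _ _).symm
  | smul c x _ hx =>
    obtain ⟨g, hg, rfl⟩ := hx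
    refine ⟨fun i => c • g i, fun i => (G B).smul_mem _ (hg i), ?_⟩
    rw [Finset.smul_sum]
    exact Finset.sum_congr rfl fun i _ => ((mulF (k := k) (a i)).map_smul c (g i)).symm

end Pool.Agent.MPd118f9
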