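import Pool.Agent.Lib.MP_d118f9_ag.B.Coord
import Pool.Agent.Lib.MP_d118f9_ag.B.Good
import Pool.Agent.Lib.MP_d118f9_ag.B.Pencil

/-!
# MP_d118f9_ag, block B: one more variable (B4)
-/

set_option autoImplicit false

noncomputable section

open Classical

namespace Pool.Agent.MPd118f9

variable {k F S : Type} [Field k] [IsAlgClosed k] [CharZero k] [Field F] [Algebra k F]
  [CommRing S] [Algebra k S] [Algebra F S] [IsScalarTower k F S]

/-- The elements of the new bundle are functions of the variables `x 0, …, x t, y`. -/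
theorem Vars.Mk_le (V : Vars k F S) {t : ℕ} {A : Dv k F} {G : Dv k F → Submodule k S}
    {B : Dv k F} (hN : ∀ u ∈ G B, u ∈ V.T t) : ∀ u ∈ V.Mk t A G B, u ∈ V.T (t + 1) := by
  rintro u ⟨hu, -⟩
  refine Submodule.mul_induction_on (C := fun u => u ∈ V.T (t + 1)) hu ?_ ?_
  · rintro m ⟨f, -, rfl⟩ n hn
    exact mul_mem (V.x_mem t f) (V.mono t (hN n hn))
  · exact fun x y hx hy => add_mem hx hy

/-- **B4.**  `Mk t A G` is a bundle.  `mono`: clear.  `smul`: `f • (x_t(a) u) = x_t(a) (f • u)`, and
`ρ t` is `F`-linear.  `inf`: coordinates `u i`, `u' i` with respect to a basis of `L(A)`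
(`exists_coord`) are equal (`Disj.left`), so they are in `G(B) ∩ G(B')`.  `fin`: a product of finite
dimensional spaces.  `rr`: `ρ t` maps `L(A)(x t) · G(B)` onto `G(B + A)`: on `∑ x_t(a i) u i` its
value is `∑ a i • u i` (`ρ_fix`, `ρ_x`), and `IsBdl.span_mul` gives all of `G(B + A)` when
`deg B ≥ b + a₀`.  So `dim = l(A) dim G(B) - dim G(B + A)` (`Disj.finrank_mul`, rank and nullity),
that is `α' = l(A) α - α` and `β' = l(A) β - α deg A - β`. -/
theorem Vars.isBdl_Mk (hF : IsCurve k F) {a₀ : ℤ} (ha : IsGood k F a₀) (V : Vars k F S)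
    [Nontrivial S] {t : ℕ} (hV : V.Disj t) {G : Dv k F → Submodule k S} {α β b : ℤ}
    (hG : IsBdl G α β b) (hGT : ∀ B, ∀ u ∈ G B, u ∈ V.T t) {A : Dv k F} (hA : a₀ ≤ deg A)
    (hb : 0 ≤ b) :
    ∃ α' β' : ℤ, IsBdl (V.Mk t A G) α' β' (b + a₀) := by
  have : FiniteDimensional k (L A) := hF.finDim A
  let a := Module.finBasis k (L A)
  have hind : LinearIndependent k (fun j => (a j : F)) :=
    a.linearIndependent.map' (L A).subtype (Submodule.ker_subtype _)
  have hmem : ∀ j, (a j : F) ∈ L A := fun j => (a j).2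
  have hsp : L A ≤ Submodule.span k (Set.range fun j => (a j : F)) := by
    have h1 : Set.range (fun j => (a j : F)) = (L A).subtype '' Set.range a := by
      rw [← Set.range_comp]
      rfl
    rw [h1, ← Submodule.map_span, a.span_eq, Submodule.map_top, Submodule.range_subtype]
  have hρ : ∀ {B : Dv k F} (u : Fin (Module.finrank k (L A)) → S), (∀ i, u i ∈ G B) →
      V.ρ t (∑ i, V.x t (a i) * u i) = ∑ i, (a i : F) • u i := by
    intro B u hu
    rw [map_sum]
    refine Finset.sum_congr rfl fun i _ => ?_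
    rw [map_mul, V.ρ_x, V.ρ_fix t _ (hGT B _ (hu i)), Algebra.smul_def]
  have hpos := ha.pos
  refine ⟨((ell A : ℤ) - 1) * α, ((ell A : ℤ) - 1) * β - α * deg A, ?_, ?_, ?_, ?_, ?_⟩
  · intro B B' hBB u hu
    exact ⟨mul_le_mul_right (hG.mono hBB) _ hu.1, hu.2⟩
  · intro f u B hf hu
    obtain ⟨v, hv, hvu⟩ := V.exists_coord hsp hu.1
    refine ⟨?_, ?_⟩
    · have h1 : f • u = ∑ i, V.x t (a i) * (f • v i) := by
        rw [hvu, Finset.smul_sum]
        refine Finset.sum_congr rfl fun i _ => ?_
        rw [mul_smul_comm]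
      rw [h1]
      exact V.mem_Lx_mul hmem fun i => hG.smul hf (hv i)
    · show V.ρ t (f • u) = 0
      have h2 : V.ρ t u = 0 := hu.2
      rw [map_smul, h2, smul_zero]
  · intro u B B' hu hu'
    obtain ⟨v, hv, hvu⟩ := V.exists_coord hsp hu.1
    obtain ⟨w, hw, hwu⟩ := V.exists_coord hsp hu'.1
    have h1 : ∀ i, v i - w i = 0 := by
      refine hV.left hind (fun i => sub_mem (hGT B _ (hv i)) (hGT B' _ (hw i))) ?_
      have h2 : ∑ i, V.x t (a i) * (v i - w i) =
          ∑ i, V.x t (a i) * v i - ∑ i, V.x t (a i) * w i := by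
        rw [← Finset.sum_sub_distrib]
        exact Finset.sum_congr rfl fun i _ => mul_sub _ _ _
      rw [h2, ← hvu, ← hwu, sub_self]
    refine ⟨?_, hu.2⟩
    rw [hvu]
    refine V.mem_Lx_mul hmem fun i => hG.inf (hv i) ?_
    rw [sub_eq_zero.1 (h1 i)]
    exact hw i
  · intro B
    have := hG.fin B
    have h1 : (V.Lx t A * G B).FG := by
      refine Submodule.FG.mul ?_ ?_
      · exact Submodule.FG.map _ (Module.Finite.iff_fg.1 inferInstance)
      · exact Module.Finite.iff_fg.1 inferInstance
    have : FiniteDimensional k (V.Lx t A * G B : Submodule k S) := Module.Finite.iff_fg.2 h1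
    exact Submodule.finiteDimensional_of_le inf_le_left
  · intro B hB
    have hBb : b ≤ deg B := by linarith
    have hBA : b ≤ deg (B + A) := by
      rw [deg_add]
      linarith
    have := hG.fin B
    have := hG.fin (B + A)
    have h1 : (V.Lx t A * G B).FG := by
      refine Submodule.FG.mul ?_ ?_
      · exact Submodule.FG.map _ (Module.Finite.iff_fg.1 inferInstance)
      · exact Module.Finite.iff_fg.1 inferInstance
    have : FiniteDimensional k (V.Lx t A * G B : Submodule k S) := Module.Finite.iff_fg.2 h1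
    let φ : (V.Lx t A * G B : Submodule k S) →ₗ[k] S :=
      ((V.ρ t).toLinearMap.restrictScalars k).comp (V.Lx t A * G B).subtype
    have hφ : ∀ x, φ x = V.ρ t (x : S) := fun x => rfl
    have hrange : LinearMap.range φ = G (B + A) := by
      refine le_antisymm ?_ ?_
      · rintro _ ⟨x, rfl⟩
        obtain ⟨v, hv, hvx⟩ := V.exists_coord hsp x.2
        rw [hφ, hvx, hρ v hv]
        exact Submodule.sum_mem _ fun i _ => hG.smul_mem hF (hmem i) (hv i)
      · intro v hv
        obtain ⟨g, hg, hvg⟩ := hG.span_mul hF ha hA hB hv hsp hmem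
        refine ⟨⟨∑ i, V.x t (a i) * g i, V.mem_Lx_mul hmem hg⟩, ?_⟩
        rw [hφ]
        show V.ρ t (∑ i, V.x t (a i) * g i) = v
        rw [hρ g hg, hvg]
    have hker : Module.finrank k (LinearMap.ker φ) = Module.finrank k (V.Mk t A G B) := by
      have h2 : (LinearMap.ker φ).map (V.Lx t A * G B).subtype = V.Mk t A G B := by
        ext x
        constructor
        · rintro ⟨y, hy, rfl⟩
          exact ⟨y.2, hy⟩
        · rintro ⟨hx, hx'⟩
          exact ⟨⟨x, hx⟩, hx', rfl⟩
      rw [← h2]
      exact ((Submodule.equivMapOfInjective _ (Submodule.injective_subtype _)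
        (LinearMap.ker φ)).finrank_eq)
    have h3 := LinearMap.finrank_range_add_finrank_ker φ
    rw [hrange, hker, hV.finrank_mul (hGT B)] at h3
    have h4 := hG.rr hBb
    have h5 := hG.rr hBA
    rw [deg_add] at h5
    have h6 : (Module.finrank k (G (B + A)) : ℤ) + Module.finrank k (V.Mk t A G B) =
        ell A * Module.finrank k (G B) := by exact_mod_cast h3
    rw [h4, h5] at h6
    linear_combination h6

end Pool.Agent.MPd118f9
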