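import Mathlib

/-!
# MP_d118f9_ag, block B: partition of unity (B8)
-/

set_option autoImplicit false

noncomputable section

open Classical

namespace Pool.Agent.MPd118f9

open Polynomial in
/-- One variable: every polynomial of degree `< (n + 1) M` is a combination of the polynomials
`∏ (i ≠ j), (X - c i) ^ M` with coefficients of degree `< M`.  Proof: these polynomials generate the
unit ideal (`exists_sum_eq_one_iff_pairwise_coprime`); multiply by `p`, reduce the coefficient of
number `j` modulo `(X - c j) ^ M`, compare the degrees. -/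
theorem exists_interp {k : Type} [Field k] {n M : ℕ} (c : Fin (n + 1) → k)
    (hc : Function.Injective c) (p : k[X]) (hp : p.degree < ((n + 1) * M : ℕ)) :
    ∃ q : Fin (n + 1) → k[X], (∀ j, (q j).degree < (M : ℕ)) ∧
      p = ∑ j, (∏ i ∈ Finset.univ.erase j, (X - C (c i)) ^ M) * q j := by
  set s : Fin (n + 1) → k[X] := fun i => (X - C (c i)) ^ M with hs
  have hmon : ∀ i, (s i).Monic := fun i => (monic_X_sub_C (c i)).pow M
  have hdeg : ∀ i, (s i).degree = (M : ℕ) := by
    intro i
    rw [hs]
    simp only
    rw [degree_pow, degree_X_sub_C, nsmul_one]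
  have hcop : Pairwise (Function.onFun IsCoprime fun i : (Finset.univ : Finset (Fin (n + 1))) =>
      s i) := by
    intro i j hij
    exact ((pairwise_coprime_X_sub_C hc (fun h => hij (Subtype.ext h))).pow)
  obtain ⟨μ, hμ⟩ := (exists_sum_eq_one_iff_pairwise_coprime
    (Finset.univ_nonempty (α := Fin (n + 1)))).2 hcop
  have hPj : ∀ j : Fin (n + 1), ∏ i ∈ Finset.univ \ {j}, s i = ∏ i ∈ Finset.univ.erase j, s i := by
    intro j
    rw [Finset.sdiff_singleton_eq_erase]
  simp only [hPj] at hμ
  refine ⟨fun j => (p * μ j) %ₘ s j, fun j => ?_, ?_⟩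
  · rw [← hdeg j]
    exact degree_modByMonic_lt _ (hmon j)
  · have h1 : p - ∑ j, (∏ i ∈ Finset.univ.erase j, s i) * ((p * μ j) %ₘ s j) =
        (∏ i, s i) * ∑ j, (p * μ j) /ₘ s j := by
      have h2 : p = ∑ j, (∏ i ∈ Finset.univ.erase j, s i) * (p * μ j) := by
        calc p = p * 1 := (mul_one p).symm
          _ = p * ∑ j, μ j * ∏ i ∈ Finset.univ.erase j, s i := by rw [hμ]
          _ = _ := by
            rw [Finset.mul_sum]
            exact Finset.sum_congr rfl fun j _ => by ring
      rw [Finset.mul_sum]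
      nth_rewrite 1 [h2]
      rw [← Finset.sum_sub_distrib]
      refine Finset.sum_congr rfl fun j _ => ?_
      have h3 := modByMonic_add_div (p * μ j) (s j)
      have h4 : ∏ i, s i = (∏ i ∈ Finset.univ.erase j, s i) * s j := by
        rw [mul_comm, Finset.mul_prod_erase _ _ (Finset.mem_univ j)]
      rw [h4]
      calc (∏ i ∈ Finset.univ.erase j, s i) * (p * μ j) -
            (∏ i ∈ Finset.univ.erase j, s i) * ((p * μ j) %ₘ s j)
          = (∏ i ∈ Finset.univ.erase j, s i) * (p * μ j - (p * μ j) %ₘ s j) := by ring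
        _ = (∏ i ∈ Finset.univ.erase j, s i) * (s j * ((p * μ j) /ₘ s j)) := by
            congr 1
            rw [sub_eq_iff_eq_add, add_comm]
            exact h3.symm
        _ = _ := by ring
    have hPdeg : ∀ j, (∏ i ∈ Finset.univ.erase j, s i).degree = ((n * M : ℕ) : WithBot ℕ) := by
      intro j
      rw [degree_prod, Finset.sum_congr rfl fun i _ => hdeg i, Finset.sum_const,
        Finset.card_erase_of_mem (Finset.mem_univ j), Finset.card_univ, Fintype.card_fin,
        Nat.add_sub_cancel, nsmul_eq_mul]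
      norm_cast
    have hlt : (p - ∑ j, (∏ i ∈ Finset.univ.erase j, s i) * ((p * μ j) %ₘ s j)).degree <
        ((n + 1) * M : ℕ) := by
      refine lt_of_le_of_lt (degree_sub_le _ _) (max_lt hp ?_)
      refine lt_of_le_of_lt (degree_sum_le _ _) ?_
      rw [Finset.sup_lt_iff (WithBot.bot_lt_coe _)]
      intro j _
      rw [degree_mul, hPdeg]
      have h3 : ((p * μ j) %ₘ s j).degree < (M : ℕ) := by
        rw [← hdeg j]
        exact degree_modByMonic_lt _ (hmon j)
      have h4 : (((n + 1) * M : ℕ) : WithBot ℕ) = ((n * M : ℕ) : WithBot ℕ) + (M : ℕ) := by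
        rw [add_mul, one_mul]
        push_cast
        rfl
      rw [h4]
      exact WithBot.add_lt_add_left (WithBot.coe_ne_bot) h3
    have hPi : (∏ i, s i).degree = (((n + 1) * M : ℕ) : WithBot ℕ) := by
      rw [degree_prod, Finset.sum_congr rfl fun i _ => hdeg i, Finset.sum_const, Finset.card_univ,
        Fintype.card_fin, nsmul_eq_mul]
      norm_cast
    have hT : ∑ j, (p * μ j) /ₘ s j = 0 := by
      by_contra hT
      rw [h1, degree_mul, hPi, degree_eq_natDegree hT] at hlt
      have h5 : (((n + 1) * M : ℕ) : WithBot ℕ) + ((∑ j, (p * μ j) /ₘ s j).natDegree : WithBot ℕ) =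
          (((n + 1) * M + (∑ j, (p * μ j) /ₘ s j).natDegree : ℕ) : WithBot ℕ) := by
        push_cast
        rfl
      rw [h5] at hlt
      have h6 : (n + 1) * M + (∑ j, (p * μ j) /ₘ s j).natDegree < (n + 1) * M := by
        exact_mod_cast hlt
      exact absurd h6 (Nat.not_lt.2 (Nat.le_add_right _ _))
    rw [hT, mul_zero, sub_eq_zero] at h1
    exact h1

section

open Polynomial

variable {k S : Type} [Field k] [CommRing S] [Algebra k S]

private theorem level_mono {H : ℕ → Submodule k S} (a : ∀ j, ∀ u ∈ H j, u ∈ H (j + 1)) {j j' : ℕ}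
    (h : j ≤ j') {u : S} (hu : u ∈ H j) : u ∈ H j' := by
  induction h with
  | refl => exact hu
  | step _ ih => exact a _ _ ih

private theorem level_pow {H : ℕ → Submodule k S} {z : S}
    (b : ∀ j, ∀ u ∈ H j, z * u ∈ H (j + 1)) {j : ℕ} {u : S} (hu : u ∈ H j) (i : ℕ) :
    z ^ i * u ∈ H (j + i) := by
  induction i with
  | zero => rwa [pow_zero, one_mul, add_zero]
  | succ i ih =>
    rw [pow_succ', mul_assoc]
    exact b _ _ ih

private theorem level_aeval {H : ℕ → Submodule k S} {z : S}
    (a : ∀ j, ∀ u ∈ H j, u ∈ H (j + 1)) (b : ∀ j, ∀ u ∈ H j, z * u ∈ H (j + 1)) {j d : ℕ} {u : S}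
    (hu : u ∈ H j) (q : k[X]) (hq : q.natDegree ≤ d) : aeval z q * u ∈ H (j + d) := by
  rw [aeval_eq_sum_range, Finset.sum_mul]
  refine Submodule.sum_mem _ fun i hi => ?_
  rw [smul_mul_assoc]
  refine Submodule.smul_mem _ _ (level_mono a ?_ (level_pow b hu i))
  have := Finset.mem_range.1 hi
  omega

private theorem level_exp {H : ℕ → Submodule k S} {z : S}
    (a : ∀ j, ∀ u ∈ H j, u ∈ H (j + 1))
    (c : ∀ j, ∀ u ∈ H (j + 1), ∃ u₀ ∈ H j, ∃ u₁ ∈ H j, u = u₀ + z * u₁) (j : ℕ) :
    ∀ x ∈ H j, ∃ h : ℕ → S, (∀ i, h i ∈ H 0) ∧ x = ∑ i ∈ Finset.range (j + 1), z ^ i * h i := by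
  induction j with
  | zero =>
    intro x hx
    exact ⟨fun _ => x, fun _ => hx, by simp⟩
  | succ j ih =>
    intro x hx
    obtain ⟨u₀, hu₀, u₁, hu₁, rfl⟩ := c j x hx
    obtain ⟨h₀, hh₀, e₀⟩ := ih u₀ hu₀
    obtain ⟨h₁, hh₁, e₁⟩ := ih u₁ hu₁
    refine ⟨fun i => (if i < j + 1 then h₀ i else 0) + (if i = 0 then 0 else h₁ (i - 1)),
      fun i => ?_, ?_⟩
    · refine Submodule.add_mem _ ?_ ?_
      · split_ifs
        · exact hh₀ i
        · exact Submodule.zero_mem _
      · split_ifs
        · exact Submodule.zero_mem _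
        · exact hh₁ _
    · simp only [mul_add, Finset.sum_add_distrib]
      congr 1
      · rw [Finset.sum_range_succ, if_neg (lt_irrefl _), mul_zero, add_zero, e₀]
        refine Finset.sum_congr rfl fun i hi => ?_
        rw [if_pos (Finset.mem_range.1 hi)]
      · rw [Finset.sum_range_succ']
        simp only [if_true, mul_zero, add_zero, Nat.succ_ne_zero, if_false, Nat.add_sub_cancel]
        rw [e₁, Finset.mul_sum]
        exact Finset.sum_congr rfl fun i _ => by ring

private theorem level_interp {n M m : ℕ} (c : Fin (n + 1) → k) (hc : Function.Injective c)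
    (hm : m + 1 = (n + 1) * M) {H : ℕ → Submodule k S} {z : S}
    (h1 : ∀ j, ∀ u ∈ H j, u ∈ H (j + 1)) (h2 : ∀ j, ∀ u ∈ H j, z * u ∈ H (j + 1))
    (h3 : ∀ j, ∀ u ∈ H (j + 1), ∃ u₀ ∈ H j, ∃ u₁ ∈ H j, u = u₀ + z * u₁) {x : S}
    (hx : x ∈ H m) : ∃ y : Fin (n + 1) → S, (∀ j, y j ∈ H (M - 1)) ∧
      x = ∑ j, aeval z (∏ i ∈ Finset.univ.erase j, (X - C (c i)) ^ M) * y j := by
  obtain ⟨h, hh, e⟩ := level_exp h1 h3 m x hx
  have hX : ∀ i : ℕ, ∃ q : Fin (n + 1) → k[X], i < m + 1 → (∀ j, (q j).degree < (M : ℕ)) ∧
      (X : k[X]) ^ i = ∑ j, (∏ i ∈ Finset.univ.erase j, (X - C (c i)) ^ M) * q j := by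
    intro i
    by_cases hi : i < m + 1
    · obtain ⟨q, hq, hq'⟩ := exists_interp (M := M) c hc ((X : k[X]) ^ i) (by
        rw [degree_X_pow, ← hm]
        exact_mod_cast hi)
      exact ⟨q, fun _ => ⟨hq, hq'⟩⟩
    · exact ⟨fun _ => 0, fun h => absurd h hi⟩
  choose q hq using hX
  refine ⟨fun j => ∑ i ∈ Finset.range (m + 1), aeval z (q i j) * h i, fun j => ?_, ?_⟩
  · refine Submodule.sum_mem _ fun i hi => ?_
    have hd := (hq i (Finset.mem_range.1 hi)).1 j
    have hd' : (q i j).natDegree ≤ M - 1 := by
      by_cases h0 : q i j = 0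
      · rw [h0, natDegree_zero]
        exact Nat.zero_le _
      · rw [degree_eq_natDegree h0] at hd
        have := WithBot.coe_lt_coe.1 hd
        have h5 : (q i j).natDegree < M := by exact_mod_cast this
        omega
    have := level_aeval (j := 0) h1 h2 (hh i) (q i j) hd'
    rwa [zero_add] at this
  · rw [e]
    simp only [Finset.mul_sum]
    rw [Finset.sum_comm]
    refine Finset.sum_congr rfl fun i hi => ?_
    have h5 : z ^ i = aeval z ((X : k[X]) ^ i) := by rw [map_pow, aeval_X]
    rw [h5, (hq i (Finset.mem_range.1 hi)).2, map_sum, Finset.sum_mul]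
    refine Finset.sum_congr rfl fun j _ => ?_
    rw [map_mul, mul_assoc]

end

/-- **B8.**  Levels `G m`, `m : Fin n → ℕ`, with `G (m + e_l) = G m + ζ l * G m`.  Proof: in one
direction `l` every `x ∈ G m`, `m l = (n + 1) M - 1`, is a sum of elements of
`P_j(ζ l) G m'`, `m' l = M - 1`, `P_j = ∏ (i ≠ j), (X - c i) ^ M` (`exists_interp`, and
`x = ∑ ζ l ^ i h_i` with `i < (n + 1) M` and `h_i` in the level with `m l = 0`).  Do this in all
directions: `x` is a
sum over `j : Fin n → Fin (n + 1)` of elements of `∏ l, P_(j l)(ζ l) G (M - 1, …, M - 1)`; choose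
`i` not in the range of `j`; then every factor `P_(j l)(ζ l)` is divisible by `(ζ l - c i) ^ M`, the
quotient has degree `(n - 1) M` and maps `G (M - 1, …)` to `G (n M - 1, …)`. -/
theorem partition {k S : Type} [Field k] [CommRing S] [Algebra k S] {n M m m' : ℕ} (ζ : Fin n → S)
    (c : Fin (n + 1) → k) (hc : Function.Injective c) (hm : m + 1 = (n + 1) * M)
    (hm' : m' + M = m) (G : (Fin n → ℕ) → Submodule k S)
    (h1 : ∀ m l, ∀ u ∈ G m, u ∈ G (Function.update m l (m l + 1)))
    (h2 : ∀ m l, ∀ u ∈ G m, ζ l * u ∈ G (Function.update m l (m l + 1)))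
    (h3 : ∀ m l, ∀ u ∈ G (Function.update m l (m l + 1)), ∃ u₀ ∈ G m, ∃ u₁ ∈ G m,
      u = u₀ + ζ l * u₁) {x : S} (hx : x ∈ G (fun _ => m)) :
    ∃ y : Fin (n + 1) → S, (∀ j, y j ∈ G (fun _ => m')) ∧
      x = ∑ j, (∏ l, (ζ l - algebraMap k S (c j)) ^ M) * y j := by
  -- levels in one direction
  have H1 : ∀ (μ : Fin n → ℕ) (l : Fin n) (j : ℕ), ∀ u ∈ G (Function.update μ l j),
      u ∈ G (Function.update μ l (j + 1)) := by
    intro μ l j u hu
    have := h1 (Function.update μ l j) l u hu
    rwa [Function.update_self, Function.update_idem] at this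
  have H2 : ∀ (μ : Fin n → ℕ) (l : Fin n) (j : ℕ), ∀ u ∈ G (Function.update μ l j),
      ζ l * u ∈ G (Function.update μ l (j + 1)) := by
    intro μ l j u hu
    have := h2 (Function.update μ l j) l u hu
    rwa [Function.update_self, Function.update_idem] at this
  have H3 : ∀ (μ : Fin n → ℕ) (l : Fin n) (j : ℕ), ∀ u ∈ G (Function.update μ l (j + 1)),
      ∃ u₀ ∈ G (Function.update μ l j), ∃ u₁ ∈ G (Function.update μ l j), u = u₀ + ζ l * u₁ := by
    intro μ l j u hu
    have := h3 (Function.update μ l j) l u (by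
      rwa [Function.update_self, Function.update_idem])
    exact this
  set P : Fin (n + 1) → Polynomial k := fun j =>
    ∏ i ∈ Finset.univ.erase j, (Polynomial.X - Polynomial.C (c i)) ^ M with hP
  -- all directions of a set `s`
  have key : ∀ s : Finset (Fin n), ∀ μ : Fin n → ℕ, (∀ l ∈ s, μ l = m) → ∀ u ∈ G μ,
      u ∈ Submodule.span k {v : S | ∃ (j : Fin n → Fin (n + 1)) (y : S),
        y ∈ G (fun l => if l ∈ s then M - 1 else μ l) ∧
        v = (∏ l ∈ s, Polynomial.aeval (ζ l) (P (j l))) * y} := by
    intro s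
    induction s using Finset.induction_on with
    | empty =>
      intro μ _ u hu
      refine Submodule.subset_span ⟨fun _ => 0, u, ?_, ?_⟩
      · simpa using hu
      · simp
    | insert l s hl ih =>
      intro μ hμ u hu
      have hμl : μ l = m := hμ l (Finset.mem_insert_self l s)
      obtain ⟨y, hy, e⟩ := level_interp (H := fun j => G (Function.update μ l j)) (z := ζ l) c hc hm
        (H1 μ l) (H2 μ l) (H3 μ l) (x := u) (by
          show u ∈ G (Function.update μ l m)
          rw [← hμl, Function.update_eq_self]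
          exact hu)
      rw [e]
      refine Submodule.sum_mem _ fun j _ => ?_
      have h4 := ih (Function.update μ l (M - 1)) (by
        intro l' hl'
        rw [Function.update_of_ne (by rintro rfl; exact hl hl')]
        exact hμ l' (Finset.mem_insert_of_mem hl')) (y j) (hy j)
      have h5 : Polynomial.aeval (ζ l) (P j) * y j ∈ Submodule.map
          (LinearMap.mulLeft k (Polynomial.aeval (ζ l) (P j)))
          (Submodule.span k {v : S | ∃ (j : Fin n → Fin (n + 1)) (y : S),
            y ∈ G (fun l' => if l' ∈ s then M - 1 else Function.update μ l (M - 1) l') ∧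
            v = (∏ l ∈ s, Polynomial.aeval (ζ l) (P (j l))) * y}) :=
        ⟨y j, h4, rfl⟩
      rw [Submodule.map_span] at h5
      refine Submodule.span_le.2 ?_ h5
      rintro _ ⟨_, ⟨j', y', hy', rfl⟩, rfl⟩
      refine Submodule.subset_span ⟨Function.update j' l j, y', ?_, ?_⟩
      · convert hy' using 2
        funext l'
        by_cases h6 : l' = l
        · subst h6
          rw [if_pos (Finset.mem_insert_self _ _), if_neg hl, Function.update_self]
        · rw [Function.update_of_ne h6]
          simp [Finset.mem_insert, h6]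
      · show Polynomial.aeval (ζ l) (P j) * _ = _
        rw [Finset.prod_insert hl, Function.update_self, mul_assoc]
        congr 2
        refine Finset.prod_congr rfl fun l' hl' => ?_
        rw [Function.update_of_ne (by rintro rfl; exact hl hl')]
  -- raising levels in all directions
  have raise : ∀ (s : Finset (Fin n)) (μ : Fin n → ℕ) (d : ℕ) (Q : Fin n → Polynomial k),
      (∀ l, (Q l).natDegree ≤ d) → ∀ u ∈ G μ,
        (∏ l ∈ s, Polynomial.aeval (ζ l) (Q l)) * u ∈
          G (fun l => if l ∈ s then μ l + d else μ l) := by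
    intro s
    induction s using Finset.induction_on with
    | empty =>
      intro μ d Q _ u hu
      simpa using hu
    | insert l s hl ih =>
      intro μ d Q hQ u hu
      have h4 := ih μ d Q hQ u hu
      rw [Finset.prod_insert hl, mul_assoc]
      have h5 := level_aeval (H := fun j => G (Function.update
        (fun l => if l ∈ s then μ l + d else μ l) l j)) (z := ζ l) (j := μ l) (d := d)
        (H1 _ l) (H2 _ l) (u := (∏ l ∈ s, Polynomial.aeval (ζ l) (Q l)) * u) (by
          show _ ∈ G (Function.update (fun l => if l ∈ s then μ l + d else μ l) l (μ l))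
          have h6 : Function.update (fun l => if l ∈ s then μ l + d else μ l) l (μ l) =
              fun l => if l ∈ s then μ l + d else μ l := by
            conv_rhs => rw [← Function.update_eq_self l (fun l => if l ∈ s then μ l + d else μ l)]
            rw [if_neg hl]
          rw [h6]
          exact h4) (Q l) (hQ l)
      convert h5 using 2
      funext l'
      by_cases h6 : l' = l
      · subst h6
        rw [if_pos (Finset.mem_insert_self _ _), Function.update_self]
      · rw [Function.update_of_ne h6]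
        simp [Finset.mem_insert, h6]
  -- the target is a subspace
  let T : Submodule k S :=
    { carrier := {x | ∃ y : Fin (n + 1) → S, (∀ j, y j ∈ G (fun _ => m')) ∧
        x = ∑ j, (∏ l, (ζ l - algebraMap k S (c j)) ^ M) * y j}
      zero_mem' := ⟨fun _ => 0, fun _ => Submodule.zero_mem _, by simp⟩
      add_mem' := by
        rintro _ _ ⟨y, hy, rfl⟩ ⟨y', hy', rfl⟩
        refine ⟨fun j => y j + y' j, fun j => Submodule.add_mem _ (hy j) (hy' j), ?_⟩
        rw [← Finset.sum_add_distrib]
        exact Finset.sum_congr rfl fun j _ => by ring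
      smul_mem' := by
        rintro r _ ⟨y, hy, rfl⟩
        refine ⟨fun j => r • y j, fun j => Submodule.smul_mem _ _ (hy j), ?_⟩
        rw [Finset.smul_sum]
        exact Finset.sum_congr rfl fun j _ => by rw [mul_smul_comm] }
  have hxT : x ∈ T := by
    have h4 := key Finset.univ (fun _ => m) (fun _ _ => rfl) x hx
    refine Submodule.span_le.2 ?_ h4
    rintro _ ⟨j, y, hy, rfl⟩
    simp only [Finset.mem_univ, if_true] at hy
    obtain ⟨i, hi⟩ : ∃ i, ∀ l, j l ≠ i := by
      by_contra hcon
      push Not at hcon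
      have h5 : Function.Surjective j := fun i => hcon i
      have h6 := Fintype.card_le_of_surjective j h5
      simp at h6
    set Q : Fin n → Polynomial k := fun l =>
      ∏ i' ∈ (Finset.univ.erase (j l)).erase i, (Polynomial.X - Polynomial.C (c i')) ^ M with hQ
    have hPQ : ∀ l, P (j l) = (Polynomial.X - Polynomial.C (c i)) ^ M * Q l := by
      intro l
      rw [hP, hQ]
      simp only
      rw [Finset.mul_prod_erase _ (fun i => (Polynomial.X - Polynomial.C (c i)) ^ M)
        (Finset.mem_erase.2 ⟨(hi l).symm, Finset.mem_univ i⟩)]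
    have hQd : ∀ l, (Q l).natDegree ≤ (n - 1) * M := by
      intro l
      rw [hQ]
      simp only
      refine (Polynomial.natDegree_prod_le _ _).trans ?_
      refine (Finset.sum_le_sum (g := fun _ => M) fun i' _ => ?_).trans ?_
      · refine (Polynomial.natDegree_pow_le).trans ?_
        rw [Polynomial.natDegree_X_sub_C, mul_one]
      · rw [Finset.sum_const, Finset.card_erase_of_mem
          (Finset.mem_erase.2 ⟨(hi l).symm, Finset.mem_univ i⟩),
          Finset.card_erase_of_mem (Finset.mem_univ _), Finset.card_univ, Fintype.card_fin,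
          smul_eq_mul, Nat.add_sub_cancel]
    have h5 := raise Finset.univ (fun _ => M - 1) ((n - 1) * M) Q hQd y hy
    simp only [Finset.mem_univ, if_true] at h5
    have h6 : M - 1 + (n - 1) * M = m' := by
      rcases n with _ | n
      · exfalso
        simp only [zero_add, one_mul] at hm
        omega
      · rw [Nat.add_sub_cancel]
        have hM : 0 < M := by
          rcases Nat.eq_zero_or_pos M with h | h
          · rw [h, mul_zero] at hm
            omega
          · exact h
        have h7 : (n + 1 + 1) * M = n * M + M + M := by ring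
        rw [h7] at hm
        omega
    rw [h6] at h5
    refine ⟨fun i' => if i' = i then (∏ l, Polynomial.aeval (ζ l) (Q l)) * y else 0,
      fun i' => ?_, ?_⟩
    · dsimp only
      split_ifs
      · exact h5
      · exact Submodule.zero_mem _
    · dsimp only
      rw [Finset.sum_eq_single i]
      · rw [if_pos rfl, ← mul_assoc, ← Finset.prod_mul_distrib]
        congr 1
        refine Finset.prod_congr rfl fun l _ => ?_
        rw [hPQ l, map_mul, map_pow, map_sub, Polynomial.aeval_X, Polynomial.aeval_C]
      · intro i' _ h7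
        rw [if_neg h7, mul_zero]
      · intro h7
        exact absurd (Finset.mem_univ i) h7
  exact hxT

end Pool.Agent.MPd118f9
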