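import Pool.Agent.Lib.MP_d118f9_ag.B.Fb
import Pool.Agent.Lib.MP_d118f9_ag.B.Partition

/-!
# MP_d118f9_ag, block B: output
-/

set_option autoImplicit false

noncomputable section

open Classical

namespace Pool.Agent.MPd118f9

variable {k F S : Type} [Field k] [IsAlgClosed k] [CharZero k] [Field F] [Algebra k F]
  [CommRing S] [Algebra k S] [Algebra F S] [IsScalarTower k F S]

/-- The last step: more poles in `y`, and multiplication by `L(A)`. -/
private theorem last_step (hF : IsCurve k F) {a₀ : ℤ} (ha : IsGood k F a₀) (t : ℕ)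
    {W D : Dv k F} (hD0 : 0 ≤ D) (hD : (t + 1) * a₀ + a₀ ≤ deg (W + D)) (V : Vars k F S)
    [Nontrivial S] (hV : ∀ s < t, V.Disj s) {A : Dv k F} (hA : a₀ ≤ deg A) {u : S}
    (hu : u ∈ V.Fb (fun _ => A) t (A + W)) :
    u ∈ Ly S A * V.Fb (fun _ => A) t (W + D) := by
  obtain ⟨α, β, hB⟩ := V.isBdl_Fb hF ha (fun _ => A) t hV (fun _ _ => hA)
  have hfin : FiniteDimensional k (L A) := hF.finDim A
  let b := Module.finBasis k (L A)
  have hsp : L A ≤ Submodule.span k (Set.range fun i => (b i : F)) := by
    have h1 : (Set.range fun i => (b i : F)) = (L A).subtype '' Set.range b := by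
      rw [← Set.range_comp]
      rfl
    rw [h1, Submodule.span_image, b.span_eq, Submodule.map_subtype_top]
  have hu' : u ∈ V.Fb (fun _ => A) t (W + D + A) := by
    refine hB.mono ?_ hu
    rw [add_comm A W, add_right_comm]
    exact le_add_of_nonneg_right hD0
  obtain ⟨g, hg, rfl⟩ := hB.span_mul hF ha hA hD hu' hsp fun i => (b i).2
  refine Submodule.sum_mem _ fun i _ => ?_
  rw [Algebra.smul_def]
  exact Submodule.mul_mem_mul ⟨(b i : F), (b i).2, rfl⟩ (hg i)

/-- The divisors of the level `μ`. -/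
private def lvA (A₀ E : Dv k F) (t : ℕ) (μ : Fin (t + 1) → ℕ) (i : ℕ) : Dv k F :=
  A₀ + (if h : i < t then μ ⟨i, by omega⟩ else 0) • E

omit [IsAlgClosed k] [CharZero k] in
private theorem lvA_update (A₀ E : Dv k F) (t : ℕ) (μ : Fin (t + 1) → ℕ) (l : Fin (t + 1))
    (hl : l.1 < t) : lvA A₀ E t (Function.update μ l (μ l + 1)) =
      Function.update (lvA A₀ E t μ) l.1 (lvA A₀ E t μ l.1 + E) := by
  funext i
  by_cases hi : i = l.1
  · subst hi
    rw [Function.update_self, lvA, lvA, dif_pos hl, dif_pos hl]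
    have h1 : (⟨l.1, by omega⟩ : Fin (t + 1)) = l := rfl
    rw [h1, Function.update_self, succ_nsmul, ← add_assoc]
  · rw [Function.update_of_ne hi, lvA, lvA]
    by_cases hit : i < t
    · rw [dif_pos hit, dif_pos hit, Function.update_of_ne]
      intro h
      exact hi (congrArg Fin.val h)
    · rw [dif_neg hit, dif_neg hit]

omit [IsAlgClosed k] [CharZero k] in
private theorem lvA_last (A₀ E : Dv k F) (t : ℕ) (μ : Fin (t + 1) → ℕ) (n : ℕ) :
    lvA A₀ E t (Function.update μ (Fin.last t) n) = lvA A₀ E t μ := by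
  funext i
  rw [lvA, lvA]
  by_cases hit : i < t
  · rw [dif_pos hit, dif_pos hit, Function.update_of_ne]
    intro h
    have h1 := congrArg Fin.val h
    simp only [Fin.val_last] at h1
    omega
  · rw [dif_neg hit, dif_neg hit]

/-- **Output of block B.**  For `deg A` large every `x ∈ Fb A t (A + W)` is
`∑ j, (∏ l, (x l z - c j) · (y z - c j)) ^ M · y_j` with
`y_j ∈ Ly (A - M E) · Fb (A - M E) t (W + M' E_j)`.
Here `M'` is chosen before `M`.

Proof.  `E = poles k z`, `E_j = Ec z (c j)`, `a₀` good, `b = (t + 1) a₀`.  `deg E_j > 0`, so there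
is `M'` with `deg (W + M' E_j) ≥ b + a₀` for all `j`.  Let `M` be given.  If `M = 0` take `y_0 =
x` and
`y_j = 0` for `j ≠ 0` (see the last step).  Let `M ≥ 1`, `m + 1 = (t + 2) M`, `m' + M = m`,
`A₀ = A - m E` and, for `μ : Fin (t + 1) → ℕ`, `G μ = Fb (l ↦ A₀ + μ l • E) t (A₀ + W + μ t • E)`.
If `deg A` is large then `isLev_Fb` and `gen_y` give the hypotheses of `partition` for
`ζ l = x l z`, `l < t`, `ζ t = y z`, so `x = ∑ j, (∏ l, (ζ l - c j)) ^ M * y_j` with
`y_j ∈ G (fun _ => m') = Fb (A - M E) t (A - M E + W)`.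
Last step: `Fb (A - M E) t (A - M E + W) ≤ Fb (A - M E) t ((W + M' E_j) + (A - M E))` (`mono`), and
by `IsBdl.span_mul` this is contained in the product `Ly (A - M E) * Fb (A - M E) t (W + M'
E_j)`. -/
theorem Vars.output (hF : IsCurve k F) (t : ℕ) {z : F} (hz : ∀ c : k, z ≠ algebraMap k F c)
    (W : Dv k F) (c : Fin (t + 2) → k) (hc : Function.Injective c) :
    ∃ M' : ℕ, ∀ M : ℕ, ∃ N : ℤ, ∀ (S : Type) [CommRing S] [Nontrivial S] [Algebra k S]
      [Algebra F S] [IsScalarTower k F S] (V : Vars k F S), (∀ s < t, V.Disj s) →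
      ∀ A : Dv k F, N ≤ deg A → ∀ x ∈ V.Fb (fun _ => A) t (A + W),
        ∃ y : Fin (t + 2) → S,
          (∀ j, y j ∈ Ly S (A - M • poles k z) *
            V.Fb (fun _ => A - M • poles k z) t (W + M' • Ec z (c j))) ∧
          x = ∑ j, ((∏ l ∈ Finset.range t, (V.x l z - algebraMap k S (c j))) *
            (algebraMap F S z - algebraMap k S (c j))) ^ M * y j := by
  obtain ⟨a₀, ha⟩ := hF.exists_isGood
  have ha0 := ha.pos
  have hE : 0 < deg (poles k z) := hF.deg_poles_pos hz
  have hEc : ∀ j, 0 < deg (Ec z (c j)) := by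
    intro j
    refine hF.deg_poles_pos fun d hd => ?_
    apply hz (c j + d⁻¹)
    have h1 : z - algebraMap k F (c j) = (algebraMap k F d)⁻¹ := by rw [← hd, inv_inv]
    rw [map_add, map_inv₀, ← h1]
    ring
  have hEc0 : ∀ j, 0 ≤ Ec z (c j) := fun j => le_sup_right
  refine ⟨((t + 1) * a₀ + a₀ - deg W).toNat, fun M => ?_⟩
  set M' : ℕ := ((t + 1) * a₀ + a₀ - deg W).toNat with hM'
  have hM'1 : (t + 1) * a₀ + a₀ - deg W ≤ (M' : ℤ) := Int.self_le_toNat _
  have hD : ∀ j, (t + 1) * a₀ + a₀ ≤ deg (W + M' • Ec z (c j)) := by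
    intro j
    rw [deg_add, deg_nsmul]
    have h1 : (M' : ℤ) * 1 ≤ M' * deg (Ec z (c j)) :=
      mul_le_mul_of_nonneg_left (hEc j) (by positivity)
    linarith
  have hD0 : ∀ j, 0 ≤ M' • Ec z (c j) := fun j => nsmul_nonneg (hEc0 j) M'
  set m : ℕ := (t + 2) * M - 1 with hm
  refine ⟨m * deg (poles k z) + M * deg (poles k z) + a₀ + deg (poles k z) + (t + 1) * a₀ +
    |deg W|, ?_⟩
  intro S _ _ _ _ _ V hV A hA x hx
  have hta : 0 ≤ ((t : ℤ) + 1) * a₀ := by positivity
  have hW1 : -|deg W| ≤ deg W := neg_abs_le _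
  have hW2 : 0 ≤ |deg W| := abs_nonneg _
  have hmE : 0 ≤ (m : ℤ) * deg (poles k z) := by positivity
  have hME : 0 ≤ (M : ℤ) * deg (poles k z) := by positivity
  have hAM : a₀ ≤ deg (A - M • poles k z) := by
    rw [deg_sub, deg_nsmul]
    linarith
  rcases Nat.eq_zero_or_pos M with hM0 | hM0
  · subst hM0
    refine ⟨fun j => if j = 0 then x else 0, fun j => ?_, ?_⟩
    · by_cases hj : j = 0
      · simp only [if_pos hj, zero_smul, sub_zero]
        rw [zero_smul, sub_zero] at hAM
        exact last_step hF ha t (hD0 j) (hD j) V hV hAM hx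
      · simp only [if_neg hj]
        exact Submodule.zero_mem _
    · simp only [pow_zero, one_mul]
      rw [Finset.sum_ite_eq', if_pos (Finset.mem_univ _)]
  · have hm1 : m + 1 = (t + 1 + 1) * M := by
      have h1 : 0 < (t + 2) * M := by positivity
      rw [hm]
      have h2 : (t + 1 + 1) * M = (t + 2) * M := by ring
      omega
    obtain ⟨m', hm'⟩ : ∃ m', m' + M = m := by
      refine ⟨m - M, Nat.sub_add_cancel ?_⟩
      have h1 : (t + 1 + 1) * M = t * M + M + M := by ring
      omega
    set E := poles k z with hEdef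
    set A₀ : Dv k F := A - m • E with hA₀
    have hdA₀ : a₀ + deg E + (t + 1) * a₀ + |deg W| ≤ deg A₀ := by
      rw [hA₀, deg_sub, deg_nsmul]
      linarith
    have hlv : ∀ (μ : Fin (t + 1) → ℕ) (s : ℕ), deg A₀ ≤ deg (lvA A₀ E t μ s) := by
      intro μ s
      rw [lvA, deg_add, deg_nsmul]
      have h1 : 0 ≤ (((if h : s < t then μ ⟨s, by omega⟩ else 0 : ℕ)) : ℤ) * deg E := by
        positivity
      linarith
    have hlvE : ∀ (μ : Fin (t + 1) → ℕ) (s : ℕ), a₀ + deg E ≤ deg (lvA A₀ E t μ s) := by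
      intro μ s
      have h1 := hlv μ s
      linarith
    let G : (Fin (t + 1) → ℕ) → Submodule k S := fun μ =>
      V.Fb (lvA A₀ E t μ) t (A₀ + W + μ (Fin.last t) • E)
    have hdB : ∀ n : ℕ, (t + 1) * a₀ + deg E ≤ deg (A₀ + W + n • E) := by
      intro n
      rw [deg_add, deg_add, deg_nsmul]
      have h1 : 0 ≤ (n : ℤ) * deg E := by positivity
      linarith
    let ζ : Fin (t + 1) → S := fun l => if l.1 < t then V.x l z else algebraMap F S z
    have hGl : ∀ (μ : Fin (t + 1) → ℕ) (l : Fin (t + 1)), l.1 < t →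
        G (Function.update μ l (μ l + 1)) =
          V.Fb (Function.update (lvA A₀ E t μ) l.1 (lvA A₀ E t μ l.1 + E)) t
            (A₀ + W + μ (Fin.last t) • E) := by
      intro μ l hl
      change V.Fb (lvA A₀ E t (Function.update μ l (μ l + 1))) t
        (A₀ + W + (Function.update μ l (μ l + 1)) (Fin.last t) • E) = _
      rw [lvA_update A₀ E t μ l hl, Function.update_of_ne]
      intro h
      rw [← h] at hl
      simp at hl
    have hGlast : ∀ (μ : Fin (t + 1) → ℕ),
        G (Function.update μ (Fin.last t) (μ (Fin.last t) + 1)) =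
          V.Fb (lvA A₀ E t μ) t (A₀ + W + μ (Fin.last t) • E + E) := by
      intro μ
      change V.Fb (lvA A₀ E t (Function.update μ (Fin.last t) (μ (Fin.last t) + 1))) t
        (A₀ + W + (Function.update μ (Fin.last t) (μ (Fin.last t) + 1)) (Fin.last t) • E) = _
      rw [lvA_last, Function.update_self, succ_nsmul, ← add_assoc]
    have hlast : ∀ l : Fin (t + 1), ¬ l.1 < t → l = Fin.last t := by
      intro l hl
      apply Fin.ext
      rw [Fin.val_last]
      omega
    have hE0 : 0 ≤ E := le_sup_right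
    obtain ⟨y, hy, hxy⟩ := partition ζ c hc hm1 hm' G (by
      intro μ l u hu
      by_cases hl : l.1 < t
      · rw [hGl μ l hl]
        exact (V.isLev_Fb hF ha hz (lvA A₀ E t μ) hl hV fun s _ => hlvE μ s).le_p hu
      · rw [hlast l hl, hGlast μ]
        obtain ⟨α, β, hB⟩ := V.isBdl_Fb hF ha (lvA A₀ E t μ) t hV fun s _ => by
          have h1 := hlvE μ s
          linarith
        exact hB.mono (le_add_of_nonneg_right hE0) hu) (by
      intro μ l u hu
      by_cases hl : l.1 < t
      · rw [hGl μ l hl]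
        simp only [ζ, if_pos hl]
        exact (V.isLev_Fb hF ha hz (lvA A₀ E t μ) hl hV fun s _ => hlvE μ s).mul_p hu
      · rw [hlast l hl, hGlast μ]
        obtain ⟨α, β, hB⟩ := V.isBdl_Fb hF ha (lvA A₀ E t μ) t hV fun s _ => by
          have h1 := hlvE μ s
          linarith
        have hζ : ζ (Fin.last t) = algebraMap F S z := by
          simp [ζ]
        rw [hζ, ← Algebra.smul_def]
        refine hB.smul_mem hF ?_ hu
        have hz0 : z ≠ 0 := by
          have h2 := hz 0
          rwa [map_zero] at h2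
        rw [mem_L_of_ne hz0]
        intro P
        have h2 : -dv k z P ≤ E P := by
          rw [hEdef]
          exact le_sup_left
        rw [hF.dv_apply hz0] at h2
        linarith) (by
      intro μ l u hu
      by_cases hl : l.1 < t
      · rw [hGl μ l hl] at hu
        simp only [ζ, if_pos hl]
        refine (V.isLev_Fb hF ha hz (lvA A₀ E t μ) hl hV fun s _ => hlvE μ s).gen ?_ hu
        have h1 := hdB (μ (Fin.last t))
        linarith
      · have hl' := hlast l hl
        subst hl'
        rw [hGlast μ] at hu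
        have hζ : ζ (Fin.last t) = algebraMap F S z := by
          simp [ζ]
        rw [hζ]
        refine V.gen_y hF ha hz (lvA A₀ E t μ) hV (fun s _ => ?_) (hdB _) hu
        have h1 := hlvE μ s
        linarith) (x := x) (by
      have h1 : lvA A₀ E t (fun _ => m) = fun i => if i < t then A else A₀ := by
        funext i
        rw [lvA]
        by_cases hi : i < t
        · rw [dif_pos hi, if_pos hi, hA₀, sub_add_cancel]
        · rw [dif_neg hi, if_neg hi, zero_smul, add_zero]
      have h2 : V.Fb (lvA A₀ E t (fun _ => m)) t = V.Fb (fun _ => A) t := by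
        rw [h1]
        exact V.Fb_congr fun l hl => if_pos hl
      have h3 : A₀ + W + m • E = A + W := by
        rw [hA₀]
        abel
      change x ∈ V.Fb (lvA A₀ E t (fun _ => m)) t (A₀ + W + m • E)
      rw [h2, h3]
      exact hx)
    refine ⟨y, fun j => ?_, ?_⟩
    · refine last_step hF ha t (hD0 j) (hD j) V hV hAM ?_
      have h0 : A₀ + m' • E = A - M • E := by
        rw [hA₀, ← hm', add_smul]
        abel
      have h1 : lvA A₀ E t (fun _ => m') = fun i => if i < t then A - M • E else A₀ := by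
        funext i
        rw [lvA]
        by_cases hi : i < t
        · rw [dif_pos hi, if_pos hi, h0]
        · rw [dif_neg hi, if_neg hi, zero_smul, add_zero]
      have h2 : V.Fb (lvA A₀ E t (fun _ => m')) t = V.Fb (fun _ => A - M • E) t := by
        rw [h1]
        exact V.Fb_congr fun l hl => if_pos hl
      have h3 : A₀ + W + m' • E = A - M • E + W := by
        rw [← h0]
        abel
      have h4 : y j ∈ V.Fb (lvA A₀ E t (fun _ => m')) t (A₀ + W + m' • E) := hy j
      rw [h2, h3] at h4
      exact h4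
    · rw [hxy]
      refine Finset.sum_congr rfl fun j _ => ?_
      congr 1
      rw [Finset.prod_pow, Fin.prod_univ_castSucc, Finset.prod_range]
      congr 2
      · refine Finset.prod_congr rfl fun l _ => ?_
        simp [ζ]
      · simp [ζ]

end Pool.Agent.MPd118f9
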